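import Pool.Agent.LibSperner53.Check

set_option autoImplicit false

/-!
Certificate data: sets of size at least three on eight points.
-/

namespace Pool.Agent.LibSperner53

/-- Subsets of eight points with at least three elements. -/
def three8 : List ℕ :=
  [7, 11, 13, 14, 15, 19, 21, 22, 23, 25, 26, 27, 28, 29, 30, 31, 35, 37, 38, 39, 41, 42, 43,
   44, 45, 46, 47, 49, 50, 51, 52, 53, 54, 55, 56, 57, 58, 59, 60, 61, 62, 63, 67, 69, 70, 71,
   73, 74, 75, 76, 77, 78, 79, 81, 82, 83, 84, 85, 86, 87, 88, 89, 90, 91, 92, 93, 94, 95, 97,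
   98, 99, 100, 101, 102, 103, 104, 105, 106, 107, 108, 109, 110, 111, 112, 113, 114, 115, 116,
   117, 118, 119, 120, 121, 122, 123, 124, 125, 126, 127, 131, 133, 134, 135, 137, 138, 139,
   140, 141, 142, 143, 145, 146, 147, 148, 149, 150, 151, 152, 153, 154, 155, 156, 157, 158,
   159, 161, 162, 163, 164, 165, 166, 167, 168, 169, 170, 171, 172, 173, 174, 175, 176, 177,
   178, 179, 180, 181, 182, 183, 184, 185, 186, 187, 188, 189, 190, 191, 193, 194, 195, 196,
   197, 198, 199, 200, 201, 202, 203, 204, 205, 206, 207, 208, 209, 210, 211, 212, 213, 214,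
   215, 216, 217, 218, 219, 220, 221, 222, 223, 224, 225, 226, 227, 228, 229, 230, 231, 232,
   233, 234, 235, 236, 237, 238, 239, 240, 241, 242, 243, 244, 245, 246, 247, 248, 249, 250,
   251, 252, 253, 254, 255]

/-- Part of a refutation certificate. -/
def ndK_0 : List Nd := [
  .pk [] [] [15, 51, 60, 85, 90, 102, 105, 150, 153, 165, 170, 195]]

/-- The whole certificate. -/
def ndK : List Nd :=
  ndK_0

theorem three8_eq : three8 = (List.range 256).filter (fun m => Nat.ble 3 (popc 8 m)) := by
  decide +kernel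

theorem rootK : rootOk 8 (2 ^ 8) 11 three8 three8 [] [] ndK = true := by
  decide +kernel

end Pool.Agent.LibSperner53
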