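import Pool.Agent.LibSperner53.Merge
import Pool.Agent.LibSperner53.Cert33
import Pool.Agent.LibSperner53.Cert24
import Pool.Agent.LibSperner53.CertFano
import Pool.Agent.LibSperner53.CertK4

set_option autoImplicit false
set_option linter.unusedSectionVars false

/-!
Lower bounds for the number of minimal sets of a monotone predicate and its dual.
-/

namespace Pool.Agent.LibSperner53

open Finset

variable {α : Type*} [Fintype α] [DecidableEq α]

theorem inst_of_mon {N B : ℕ} {pS pC : Finset (Fin N) → Prop} {f : Finset (Fin N) → Prop}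
    (hf : Mon f) (h1 : ∀ m ∈ mt f, pS m) (h2 : ∀ c ∈ cl f, pC c) (h3 : tt f ≤ B) :
    Inst N B pS pC (mt f) (cl f) := by
  refine ⟨h1, h2, ?_, ?_, ?_, ?_, h3⟩
  · intro m hm c hc
    exact mt_cl_inter hf hm hc
  · intro Z
    by_cases hZ : f Z
    · exact Or.inl (exists_mt hZ)
    · exact Or.inr (exists_cl hZ)
  · intro m hm m' hm' h
    exact mt_anti hm hm' h
  · intro m hm m' hm' h
    exact mt_anti hm hm' h

theorem exists_inj {U : Finset α} {N : ℕ} (h0 : 0 < N) (h : U.card ≤ N) :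
    ∃ e : α → Fin N, Set.InjOn e U := by
  obtain ⟨emb⟩ : Nonempty (U ↪ Fin N) := by
    apply Function.Embedding.nonempty_of_card_le
    simpa using h
  refine ⟨fun v => if hv : v ∈ U then emb ⟨v, hv⟩ else ⟨0, h0⟩, ?_⟩
  intro a ha b hb hab
  have ha' : a ∈ U := ha
  have hb' : b ∈ U := hb
  simp only [dif_pos ha', dif_pos hb'] at hab
  have := emb.injective hab
  exact congrArg Subtype.val this

theorem merge_down {N : ℕ} (A : (Finset α → Prop) → Prop)
    (hA : ∀ f, Mon f → A f → N < (supp f).card →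
      ∃ x ∈ supp f, ∃ y ∈ supp f, x ≠ y ∧ A (mg x y f)) :
    ∀ n : ℕ, ∀ f, (supp f).card ≤ n → Mon f → A f →
      ∃ g, Mon g ∧ A g ∧ (supp g).card ≤ N := by
  intro n
  induction n with
  | zero =>
    intro f hn hf hAf
    exact ⟨f, hf, hAf, by omega⟩
  | succ n ih =>
    intro f hn hf hAf
    by_cases h : (supp f).card ≤ N
    · exact ⟨f, hf, hAf, h⟩
    · push Not at h
      obtain ⟨x, hx, y, hy, hxy, hAg⟩ := hA f hf hAf h
      apply ih (mg x y f) _ (hf.mg x y) hAg
      have h1 := card_le_card (supp_mg hf hxy)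
      rw [insert_eq_of_mem hx, card_erase_of_mem hy] at h1
      omega

theorem pair_count {U : Finset α} {T : Finset (Finset α)}
    (h : ∀ x ∈ U, ∀ y ∈ U, x ≠ y → ∃ t ∈ T, x ∈ t ∧ y ∈ t) :
    U.card * U.card - U.card ≤ ∑ t ∈ T, (t.card * t.card - t.card) := by
  have h1 : U.offDiag ⊆ T.biUnion (fun t => t.offDiag) := by
    intro p hp
    rw [mem_offDiag] at hp
    obtain ⟨t, ht, h1, h2⟩ := h p.1 hp.1 p.2 hp.2.1 hp.2.2
    rw [mem_biUnion]
    exact ⟨t, ht, mem_offDiag.mpr ⟨h1, h2, hp.2.2⟩⟩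
  have h2 := (card_le_card h1).trans card_biUnion_le
  rw [offDiag_card] at h2
  refine h2.trans (le_of_eq ?_)
  apply sum_congr rfl
  intro t _
  rw [offDiag_card]

/-- Degree version of the pair count. -/
theorem deg_count {U : Finset α} {T : Finset (Finset α)} {k d : ℕ}
    (hk : ∀ t ∈ T, t.card = k) (hd : (k - 1) * d + 1 < U.card)
    (h : ∀ x ∈ U, ∀ y ∈ U, x ≠ y → ∃ t ∈ T, x ∈ t ∧ y ∈ t) :
    U.card * (d + 1) ≤ T.card * k := by
  have h1 : ∀ x ∈ U, d + 1 ≤ (T.filter (fun t => x ∈ t)).card := by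
    intro x hx
    have h2 : U.erase x ⊆ (T.filter (fun t => x ∈ t)).biUnion (fun t => t.erase x) := by
      intro y hy
      rw [mem_erase] at hy
      obtain ⟨t, ht, hxt, hyt⟩ := h x hx y hy.2 (Ne.symm hy.1)
      rw [mem_biUnion]
      exact ⟨t, mem_filter.mpr ⟨ht, hxt⟩, mem_erase.mpr ⟨hy.1, hyt⟩⟩
    have h3 := (card_le_card h2).trans card_biUnion_le
    have h4 : ∑ t ∈ T.filter (fun t => x ∈ t), (t.erase x).card ≤
        (T.filter (fun t => x ∈ t)).card * (k - 1) := by
      apply sum_le_card_nsmul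
      intro t ht
      rw [mem_filter] at ht
      rw [card_erase_of_mem ht.2, hk t ht.1]
    rw [card_erase_of_mem hx] at h3
    by_contra hlt
    push Not at hlt
    have h5 : (T.filter (fun t => x ∈ t)).card * (k - 1) ≤ d * (k - 1) :=
      Nat.mul_le_mul_right _ (by omega)
    have h6 : (k - 1) * d = d * (k - 1) := Nat.mul_comm _ _
    omega
  have h2 : ∑ x ∈ U, (T.filter (fun t => x ∈ t)).card =
      ∑ t ∈ T, (U.filter (fun x => x ∈ t)).card :=
    sum_card_bipartiteAbove_eq_sum_card_bipartiteBelow (fun x t => x ∈ t)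
  have h3 : U.card * (d + 1) ≤ ∑ x ∈ U, (T.filter (fun t => x ∈ t)).card := by
    rw [← smul_eq_mul]
    exact card_nsmul_le_sum _ _ _ h1
  have h4 : ∑ t ∈ T, (U.filter (fun x => x ∈ t)).card ≤ T.card * k := by
    rw [← smul_eq_mul]
    apply sum_le_card_nsmul
    intro t ht
    rw [← hk t ht]
    apply card_le_card
    intro x hx
    exact (mem_filter.mp hx).2
  omega

/-! ### Both sizes at least three -/

theorem enc_mem_three8 (m : Finset (Fin 8)) (h : 3 ≤ m.card) : enc m ∈ three8 := by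
  rw [three8_eq, List.mem_filter, List.mem_range]
  refine ⟨enc_lt m, ?_⟩
  rw [← card_dec, dec_enc, Nat.ble_eq]
  exact h

theorem bound33_aux {f : Finset (Fin 8) → Prop} (hf : Mon f) (h1 : ∀ m ∈ mt f, 3 ≤ m.card)
    (h2 : ∀ c ∈ cl f, 3 ≤ c.card) : 12 ≤ tt f := by
  by_contra hlt
  have hI : Inst 8 11 (fun m => 3 ≤ m.card) (fun m => 3 ≤ m.card) (mt f) (cl f) :=
    inst_of_mon hf h1 h2 (by omega)
  have hR := root_sound (N := 8) (B := 11) (pS := fun m => 3 ≤ m.card)
    (pC := fun m => 3 ≤ m.card) enc_mem_three8 enc_mem_three8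
    (by intro τ _ m hm; simpa using hm) (by intro τ _ m hm; simpa using hm) rootK
  exact hR _ _ hI (Or.inl rfl) (by simp) (by simp)

theorem card_img_ge {x y : α} (hxy : x ≠ y) {k : ℕ} {m : Finset α} (h : k ≤ m.card)
    (h2 : m.card = k → ¬ (x ∈ m ∧ y ∈ m)) : k ≤ (img x y m).card := by
  by_cases hb : x ∈ m ∧ y ∈ m
  · rw [card_img' hxy hb]
    have : m.card ≠ k := fun h3 => h2 h3 hb
    omega
  · rw [card_img hxy hb]
    exact h

theorem bound33 {f : Finset α → Prop} (hf : Mon f) (h1 : ∀ m ∈ mt f, 3 ≤ m.card)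
    (h2 : ∀ c ∈ cl f, 3 ≤ c.card) : 12 ≤ tt f := by
  by_contra hlt
  let A : (Finset α → Prop) → Prop := fun f =>
    (∀ m ∈ mt f, 3 ≤ m.card) ∧ (∀ c ∈ cl f, 3 ≤ c.card) ∧ tt f ≤ 11
  obtain ⟨g, hg, ⟨hg1, hg2, hg3⟩, hgs⟩ := merge_down (N := 8) A (by
    intro f hf hA hN
    obtain ⟨h1, h2, h3⟩ := hA
    by_contra hno
    push Not at hno
    have hcov : ∀ x ∈ supp f, ∀ y ∈ supp f, x ≠ y →
        ∃ t ∈ (mt f ∪ cl f).filter (fun t => t.card = 3), x ∈ t ∧ y ∈ t := by
      intro x hx y hy hxy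
      by_contra hc
      push Not at hc
      apply hno x hx y hy hxy
      refine ⟨?_, ?_, (tt_mg hf hxy).trans h3⟩
      · intro m hm
        obtain ⟨m0, hm0, rfl⟩ := mt_mg hf hxy hm
        apply card_img_ge hxy (h1 m0 hm0)
        intro h4 h5
        exact hc m0 (mem_filter.mpr ⟨mem_union_left _ hm0, h4⟩) h5.1 h5.2
      · intro m hm
        obtain ⟨m0, hm0, rfl⟩ := cl_mg hf hxy hm
        apply card_img_ge hxy (h2 m0 hm0)
        intro h4 h5
        exact hc m0 (mem_filter.mpr ⟨mem_union_right _ hm0, h4⟩) h5.1 h5.2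
    have h4 := pair_count hcov
    have h5 : ∑ t ∈ (mt f ∪ cl f).filter (fun t => t.card = 3), (t.card * t.card - t.card) ≤
        ((mt f ∪ cl f).filter (fun t => t.card = 3)).card * 6 := by
      apply sum_le_card_nsmul
      intro t ht
      rw [(mem_filter.mp ht).2]
    have h6 : ((mt f ∪ cl f).filter (fun t => t.card = 3)).card ≤ 11 := by
      refine (card_filter_le _ _).trans ((card_union_le _ _).trans ?_)
      exact h3
    have h7 : 9 * 8 ≤ (supp f).card * ((supp f).card - 1) := Nat.mul_le_mul (by omega) (by omega)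
    rw [Nat.mul_sub, Nat.mul_one] at h7
    omega) _ f le_rfl hf ⟨h1, h2, by omega⟩
  obtain ⟨e, he⟩ := exists_inj (U := supp g) (N := 8) (by norm_num) hgs
  have h3 := bound33_aux (f := tr (supp g) e g) (hg.tr _ e) (by
    intro w hw
    obtain ⟨m, hm, hmU, rfl⟩ := mt_tr hg hw
    rw [card_image_of_sub he hmU]
    exact hg1 m hm) (by
    intro w hw
    obtain ⟨m, hm, hmU, rfl⟩ := cl_tr hg (Subset.refl _) hw
    rw [card_image_of_sub he hmU]
    exact hg2 m hm)
  have h4 := tt_tr hg (Subset.refl (supp g)) e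
  omega

/-! ### Minimal sets of size two, dual sets of size at least four -/

theorem bound24_aux {f : Finset (Fin 10) → Prop} (hf : Mon f) (h1 : ∀ m ∈ mt f, m.card = 2)
    (h2 : ∀ c ∈ cl f, 4 ≤ c.card) : 12 ≤ tt f := by
  by_contra hlt
  have hI : Inst 10 11 (fun m => m.card = 2) (fun m => 4 ≤ m.card) (mt f) (cl f) :=
    inst_of_mon hf h1 h2 (by omega)
  have hR := root_sound (N := 10) (B := 11) (pS := fun m => m.card = 2)
    (pC := fun m => 4 ≤ m.card) (by
      intro m hm
      rw [two10_eq, List.mem_filter, List.mem_range]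
      refine ⟨enc_lt m, ?_⟩
      rw [← card_dec, dec_enc, Nat.beq_eq]
      exact hm) (by
      intro m hm
      rw [four10_eq, List.mem_filter, List.mem_range]
      refine ⟨enc_lt m, ?_⟩
      rw [← card_dec, dec_enc, Nat.ble_eq]
      exact hm)
    (by intro τ _ m hm; simpa using hm) (by intro τ _ m hm; simpa using hm) root24
  exact hR _ _ hI (Or.inl rfl) (by simp) (by simp)

theorem bound24 {f : Finset α → Prop} (hf : Mon f) (h1 : ∀ m ∈ mt f, m.card = 2)
    (h2 : ∀ c ∈ cl f, 4 ≤ c.card) : 12 ≤ tt f := by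
  by_contra hlt
  let A : (Finset α → Prop) → Prop := fun f =>
    (∀ m ∈ mt f, m.card = 2) ∧ (∀ c ∈ cl f, 4 ≤ c.card) ∧ tt f ≤ 11
  obtain ⟨g, hg, ⟨hg1, hg2, hg3⟩, hgs⟩ := merge_down (N := 10) A (by
    intro f hf hA hN
    obtain ⟨h1, h2, h3⟩ := hA
    by_contra hno
    push Not at hno
    have hcov : ∀ x ∈ supp f, ∀ y ∈ supp f, x ≠ y →
        ∃ t ∈ mt f ∪ (cl f).filter (fun t => t.card = 4), x ∈ t ∧ y ∈ t := by
      intro x hx y hy hxy
      by_contra hc
      push Not at hc
      apply hno x hx y hy hxy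
      refine ⟨?_, ?_, (tt_mg hf hxy).trans h3⟩
      · intro m hm
        obtain ⟨m0, hm0, rfl⟩ := mt_mg hf hxy hm
        rw [card_img hxy (fun h5 => hc m0 (mem_union_left _ hm0) h5.1 h5.2)]
        exact h1 m0 hm0
      · intro m hm
        obtain ⟨m0, hm0, rfl⟩ := cl_mg hf hxy hm
        apply card_img_ge hxy (h2 m0 hm0)
        intro h4 h5
        exact hc m0 (mem_union_right _ (mem_filter.mpr ⟨hm0, h4⟩)) h5.1 h5.2
    have h4 := pair_count hcov
    have h5 : ∑ t ∈ mt f ∪ (cl f).filter (fun t => t.card = 4), (t.card * t.card - t.card) ≤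
        ∑ t ∈ mt f, (t.card * t.card - t.card) +
          ∑ t ∈ (cl f).filter (fun t => t.card = 4), (t.card * t.card - t.card) := by
      rw [← sum_union_inter]
      exact Nat.le_add_right _ _
    have h6 : ∑ t ∈ mt f, (t.card * t.card - t.card) ≤ (mt f).card * 2 := by
      apply sum_le_card_nsmul
      intro t ht
      rw [h1 t ht]
    have h7 : ∑ t ∈ (cl f).filter (fun t => t.card = 4), (t.card * t.card - t.card) ≤
        ((cl f).filter (fun t => t.card = 4)).card * 12 := by
      apply sum_le_card_nsmul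
      intro t ht
      rw [(mem_filter.mp ht).2]
    have h8 : ((cl f).filter (fun t => t.card = 4)).card ≤ (cl f).card := card_filter_le _ _
    obtain ⟨c, hc⟩ := cl_nonempty_of_mt hf (fun m hm => card_pos.mp (by have := h1 m hm; omega))
    have h9 := card_le_mt hf hc
    have h10 := h2 c hc
    have h11 : 11 * 10 ≤ (supp f).card * ((supp f).card - 1) :=
      Nat.mul_le_mul (by omega) (by omega)
    rw [Nat.mul_sub, Nat.mul_one] at h11
    unfold tt at h3
    omega) _ f le_rfl hf ⟨h1, h2, by omega⟩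
  obtain ⟨e, he⟩ := exists_inj (U := supp g) (N := 10) (by norm_num) hgs
  have h3 := bound24_aux (f := tr (supp g) e g) (hg.tr _ e) (by
    intro w hw
    obtain ⟨m, hm, hmU, rfl⟩ := mt_tr hg hw
    rw [card_image_of_sub he hmU]
    exact hg1 m hm) (by
    intro w hw
    obtain ⟨m, hm, hmU, rfl⟩ := cl_tr hg (Subset.refl _) hw
    rw [card_image_of_sub he hmU]
    exact hg2 m hm)
  have h4 := tt_tr hg (Subset.refl (supp g)) e
  omega

/-! ### Consequences -/

theorem exists_two_or_disjoint {f : Finset α → Prop}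
    (h : ∀ x : α, ((mt f).filter (fun m => x ∈ m)).card ≤ 1) :
    ∀ m ∈ mt f, ∀ m' ∈ mt f, m ≠ m' → Disjoint m m' := by
  intro m hm m' hm' hne
  rw [Finset.disjoint_left]
  intro x hx hx'
  have h1 := h x
  rw [card_le_one] at h1
  exact hne (h1 m (mem_filter.mpr ⟨hm, hx⟩) m' (mem_filter.mpr ⟨hm', hx'⟩))

theorem bound34 {f : Finset α → Prop} (hf : Mon f) (h1 : ∀ m ∈ mt f, 3 ≤ m.card)
    (h2 : ∀ c ∈ cl f, 4 ≤ c.card) : 14 ≤ tt f := by
  by_cases h : ∀ x : α, ((mt f).filter (fun m => x ∈ m)).card ≤ 1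
  · have h3 := pow_le_cl hf (exists_two_or_disjoint h) (fun m hm => by
      have := h1 m hm; omega)
    obtain ⟨c, hc⟩ := cl_nonempty_of_mt hf (fun m hm => card_pos.mp (by have := h1 m hm; omega))
    have h4 := card_le_mt hf hc
    have h5 := h2 c hc
    have h6 : 2 ^ 4 ≤ 2 ^ (mt f).card := Nat.pow_le_pow_right (by norm_num) (by omega)
    unfold tt
    omega
  · push Not at h
    obtain ⟨x, hx⟩ := h
    have h3 := tt_res hf x
    have h4 := bound33 (hf.res x) (fun m hm => h1 m (mt_res_subset x hm).1) (fun c hc => by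
      obtain ⟨c2, hc2, rfl⟩ := cl_res_subset hf x hc
      have h5 := h2 c2 hc2
      have h6 := pred_card_le_card_erase (s := c2) (a := x)
      omega)
    omega

theorem bound43 {f : Finset α → Prop} (hf : Mon f) (h1 : ∀ m ∈ mt f, 4 ≤ m.card)
    (h2 : ∀ c ∈ cl f, 3 ≤ c.card) : 14 ≤ tt f := by
  rw [← tt_dual]
  exact bound34 hf.dual h2 (by rw [cl_dual]; exact h1)

theorem bound2c {c : ℕ} : ∀ {f : Finset α → Prop}, Mon f → (∀ m ∈ mt f, m.card = 2) →
    (∀ d ∈ cl f, c + 4 ≤ d.card) → 12 + 2 * c ≤ tt f := by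
  induction c with
  | zero =>
    intro f hf h1 h2
    have := bound24 hf h1 (fun d hd => by have := h2 d hd; omega)
    omega
  | succ c ih =>
    intro f hf h1 h2
    by_cases h : ∀ x : α, ((mt f).filter (fun m => x ∈ m)).card ≤ 1
    · have h3 := pow_le_cl hf (exists_two_or_disjoint h) (fun m hm => by
        have := h1 m hm; omega)
      obtain ⟨d, hd⟩ := cl_nonempty_of_mt hf
        (fun m hm => card_pos.mp (by have := h1 m hm; omega))
      have h4 := card_le_mt hf hd
      have h5 := h2 d hd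
      have h6 : 2 ^ (c + 5) ≤ 2 ^ (mt f).card := Nat.pow_le_pow_right (by norm_num) (by omega)
      have h7 : c < 2 ^ c := Nat.lt_two_pow_self
      have h8 : 2 ^ (c + 5) = 32 * 2 ^ c := by rw [pow_add]; ring
      unfold tt
      omega
    · push Not at h
      obtain ⟨x, hx⟩ := h
      have h3 := tt_res hf x
      have h4 := ih (hf.res x) (fun m hm => h1 m (mt_res_subset x hm).1) (fun d hd => by
        obtain ⟨c2, hc2, rfl⟩ := cl_res_subset hf x hd
        have h5 := h2 c2 hc2
        have h6 := pred_card_le_card_erase (s := c2) (a := x)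
        omega)
      omega

end Pool.Agent.LibSperner53
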