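import Mathlib

set_option autoImplicit false

/-!
A checker for refutation certificates of finite search problems on pairs of cross-intersecting
families of subsets of `Fin N`, encoded by bitmasks.
-/

namespace Pool.Agent.LibSperner53

open Finset

/-! ### Bitmasks -/

/-- The set of a bitmask. -/
def dec (N m : ℕ) : Finset (Fin N) := univ.filter (fun i => m.testBit i = true)

/-- The bitmask of a set. -/
def enc {N : ℕ} (s : Finset (Fin N)) : ℕ := Nat.ofBits (fun i : Fin N => decide (i ∈ s))

theorem mem_dec {N m : ℕ} {i : Fin N} : i ∈ dec N m ↔ m.testBit i = true := by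
  simp [dec]

theorem testBit_enc {N : ℕ} (s : Finset (Fin N)) (i : Fin N) :
    (enc s).testBit i = true ↔ i ∈ s := by
  unfold enc
  rw [Nat.testBit_ofBits_lt _ _ i.2]
  simp

theorem testBit_enc_ge {N : ℕ} (s : Finset (Fin N)) (i : ℕ) (h : N ≤ i) :
    (enc s).testBit i = false := by
  unfold enc
  exact Nat.testBit_ofBits_ge _ _ h

theorem dec_enc {N : ℕ} (s : Finset (Fin N)) : dec N (enc s) = s := by
  ext i
  rw [mem_dec, testBit_enc]

theorem enc_lt {N : ℕ} (s : Finset (Fin N)) : enc s < 2 ^ N := Nat.ofBits_lt_two_pow _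

theorem enc_inj {N : ℕ} {s t : Finset (Fin N)} (h : enc s = enc t) : s = t := by
  rw [← dec_enc s, ← dec_enc t, h]

theorem dec_inj {N a b : ℕ} (ha : a < 2 ^ N) (hb : b < 2 ^ N) (h : dec N a = dec N b) :
    a = b := by
  apply Nat.eq_of_testBit_eq
  intro i
  by_cases hi : i < N
  · have := Finset.ext_iff.mp h ⟨i, hi⟩
    rw [mem_dec, mem_dec] at this
    simp only at this
    by_cases h1 : a.testBit i = true
    · rw [h1, this.mp h1]
    · have h2 : ¬ b.testBit i = true := fun h3 => h1 (this.mpr h3)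
      simp only [Bool.not_eq_true] at h1 h2
      rw [h1, h2]
  · push Not at hi
    rw [Nat.testBit_lt_two_pow (lt_of_lt_of_le ha (Nat.pow_le_pow_right (by norm_num) hi)),
      Nat.testBit_lt_two_pow (lt_of_lt_of_le hb (Nat.pow_le_pow_right (by norm_num) hi))]

theorem enc_dec {N a : ℕ} (ha : a < 2 ^ N) : enc (dec N a) = a :=
  dec_inj (enc_lt _) ha (dec_enc _)

/-- Bitmask inclusion. -/
def subm (a b : ℕ) : Bool := Nat.beq (Nat.land a b) a

/-- Bitmask disjointness. -/
def disj (a b : ℕ) : Bool := Nat.beq (Nat.land a b) 0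

theorem subm_iff {a b : ℕ} : subm a b = true ↔ (a &&& b) = a := by
  unfold subm
  rw [Nat.beq_eq]
  rfl

theorem disj_iff {a b : ℕ} : disj a b = true ↔ (a &&& b) = 0 := by
  unfold disj
  rw [Nat.beq_eq]
  rfl

/-- Number of ones among the first `n` bits. -/
def popc : ℕ → ℕ → ℕ
  | 0, _ => 0
  | n + 1, m => m % 2 + popc n (m / 2)

theorem card_dec (N : ℕ) : ∀ m : ℕ, (dec N m).card = popc N m := by
  induction N with
  | zero => intro m; rfl
  | succ n ih =>
    intro m
    unfold dec popc
    rw [Fin.card_filter_univ_succ]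
    have h1 := ih (m / 2)
    unfold dec at h1
    have h2 : ∀ i : Fin n, (m.testBit (i.succ : ℕ) = true) = ((m / 2).testBit (i : ℕ) = true) := by
      intro i
      rw [Fin.val_succ, Nat.testBit_add_one]
    simp only [h2, h1]
    have h3 : ((m.testBit ((0 : Fin (n + 1)) : ℕ)) = true) ↔ m % 2 = 1 := by
      simp [Nat.testBit_zero]
    rcases Nat.mod_two_eq_zero_or_one m with h | h
    · rw [if_neg (by rw [h3]; omega), h]
      omega
    · rw [if_pos (by rw [h3]; omega), h]
      omega

theorem subm_dec {N a b : ℕ} (h : subm a b = true) : dec N a ⊆ dec N b := by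
  rw [subm_iff] at h
  intro i hi
  rw [mem_dec] at *
  rw [← h, Nat.testBit_and] at hi
  simp only [Bool.and_eq_true] at hi
  exact hi.2

theorem disj_dec {N a b : ℕ} (h : disj a b = true) : Disjoint (dec N a) (dec N b) := by
  rw [disj_iff] at h
  rw [Finset.disjoint_left]
  intro i hi hi'
  rw [mem_dec] at *
  have h1 : (a &&& b).testBit i = true := by
    rw [Nat.testBit_and, hi, hi']
    rfl
  rw [h] at h1
  simp at h1

theorem subm_enc {N : ℕ} {s : Finset (Fin N)} {z : ℕ} (h : s ⊆ dec N z) :
    subm (enc s) z = true := by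
  rw [subm_iff]
  apply Nat.eq_of_testBit_eq
  intro i
  rw [Nat.testBit_and]
  by_cases hi : i < N
  · by_cases h1 : (enc s).testBit i = true
    · have h2 := h ((testBit_enc s ⟨i, hi⟩).mp h1)
      rw [mem_dec] at h2
      rw [h1]
      simpa using h2
    · simp only [Bool.not_eq_true] at h1
      rw [h1]
      rfl
  · push Not at hi
    rw [testBit_enc_ge s i hi]
    rfl

theorem disj_enc {N : ℕ} {s : Finset (Fin N)} {z : ℕ} (h : Disjoint s (dec N z)) :
    disj (enc s) z = true := by
  rw [disj_iff]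
  apply Nat.eq_of_testBit_eq
  intro i
  rw [Nat.testBit_and, Nat.zero_testBit]
  by_cases hi : i < N
  · by_cases h1 : (enc s).testBit i = true
    · have h2 := (testBit_enc s ⟨i, hi⟩).mp h1
      have h3 := Finset.disjoint_left.mp h h2
      rw [mem_dec] at h3
      simp only [Bool.not_eq_true] at h3
      rw [h3, Bool.and_false]
    · simp only [Bool.not_eq_true] at h1
      rw [h1]
      rfl
  · push Not at hi
    rw [testBit_enc_ge s i hi]
    rfl

/-! ### Permutations -/

/-- Image of a bitmask under the map sending bit `i` to the `i`-th hexadecimal digit of `P`. -/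
def pm : ℕ → ℕ → ℕ → ℕ
  | 0, _, _ => 0
  | n + 1, P, m => (bif m % 2 == 1 then 1 <<< (P % 16) else 0) ||| pm n (P / 16) (m / 2)

theorem testBit_pm (n : ℕ) : ∀ P m j : ℕ, (pm n P m).testBit j = true ↔
    ∃ i < n, m.testBit i = true ∧ P / 16 ^ i % 16 = j := by
  induction n with
  | zero => intro P m j; simp [pm]
  | succ n ih =>
    intro P m j
    rw [pm, Nat.testBit_or, Bool.or_eq_true, ih]
    constructor
    · rintro (h | ⟨i, hi, h1, h2⟩)
      · refine ⟨0, by omega, ?_⟩
        rw [Nat.testBit_zero]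
        cases hb : (m % 2 == 1)
        · rw [hb] at h
          simp at h
        · rw [hb] at h
          rw [cond_true, Nat.one_shiftLeft, Nat.testBit_two_pow] at h
          simp only [decide_eq_true_eq] at h
          rw [beq_iff_eq] at hb
          exact ⟨by simpa using hb, by simpa using h⟩
      · refine ⟨i + 1, by omega, ?_, ?_⟩
        · rw [Nat.testBit_add_one]
          exact h1
        · rw [← h2, pow_succ, mul_comm, ← Nat.div_div_eq_div_mul]
    · rintro ⟨i, hi, h1, h2⟩
      rcases i with _ | i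
      · left
        rw [Nat.testBit_zero] at h1
        have h3 : (m % 2 == 1) = true := by
          rw [beq_iff_eq]
          simpa using h1
        rw [h3, cond_true, Nat.one_shiftLeft, Nat.testBit_two_pow]
        simpa using h2
      · right
        refine ⟨i, by omega, ?_, ?_⟩
        · rw [Nat.testBit_add_one] at h1
          exact h1
        · rw [← h2, pow_succ, mul_comm (16 ^ i), ← Nat.div_div_eq_div_mul]

theorem perm_of_pm {N P : ℕ} (h : pm N P (2 ^ N - 1) = 2 ^ N - 1) :
    ∃ σ : Equiv.Perm (Fin N), ∀ i : Fin N, P / 16 ^ (i : ℕ) % 16 = σ i := by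
  have hs : ∀ j : Fin N, ∃ i : Fin N, P / 16 ^ (i : ℕ) % 16 = j := by
    intro j
    have h1 : (pm N P (2 ^ N - 1)).testBit j = true := by
      rw [h, Nat.testBit_two_pow_sub_one]
      simp
    rw [testBit_pm] at h1
    obtain ⟨i, hi, -, h2⟩ := h1
    exact ⟨⟨i, hi⟩, h2⟩
  choose τ hτ using hs
  have hinj : Function.Injective τ := by
    intro a b hab
    have h1 := hτ a
    rw [hab, hτ b] at h1
    exact Fin.ext h1.symm
  have hbij : Function.Bijective τ := Finite.injective_iff_bijective.mp hinj
  refine ⟨(Equiv.ofBijective τ hbij).symm, fun i => ?_⟩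
  have h1 := hτ ((Equiv.ofBijective τ hbij).symm i)
  have h2 : τ ((Equiv.ofBijective τ hbij).symm i) = i :=
    (Equiv.ofBijective τ hbij).apply_symm_apply i
  rw [h2] at h1
  exact h1

theorem dec_pm {N P : ℕ} {σ : Equiv.Perm (Fin N)}
    (hσ : ∀ i : Fin N, P / 16 ^ (i : ℕ) % 16 = σ i) (m : ℕ) :
    dec N (pm N P m) = (dec N m).map σ.toEmbedding := by
  ext j
  rw [mem_dec, testBit_pm, mem_map]
  constructor
  · rintro ⟨i, hi, h1, h2⟩
    refine ⟨⟨i, hi⟩, ?_, ?_⟩
    · rw [mem_dec]
      exact h1
    · apply Fin.ext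
      have := hσ ⟨i, hi⟩
      simp only [Equiv.coe_toEmbedding]
      rw [← this]
      exact h2
  · rintro ⟨i, hi, rfl⟩
    rw [mem_dec] at hi
    exact ⟨i, i.2, hi, by simpa using hσ i⟩

/-! ### Instances -/

/-- A pair of families `S`, `C` that is dual, with size conditions and bounded total. -/
structure Inst (N B : ℕ) (pS pC : Finset (Fin N) → Prop) (S C : Finset (Finset (Fin N))) :
    Prop where
  hS : ∀ m ∈ S, pS m
  hC : ∀ c ∈ C, pC c
  meet : ∀ m ∈ S, ∀ c ∈ C, ¬ Disjoint m c
  cover : ∀ Z : Finset (Fin N), (∃ m ∈ S, m ⊆ Z) ∨ (∃ c ∈ C, Disjoint c Z)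
  antiS : ∀ m ∈ S, ∀ m' ∈ S, m ⊆ m' → m = m'
  antiC : ∀ c ∈ C, ∀ c' ∈ C, c ⊆ c' → c = c'
  card : S.card + C.card ≤ B

/-- Apply a permutation to a family. -/
def mp {N : ℕ} (τ : Equiv.Perm (Fin N)) (S : Finset (Finset (Fin N))) :
    Finset (Finset (Fin N)) := S.image (fun m => m.map τ.toEmbedding)

theorem map_symm_map {N : ℕ} (τ : Equiv.Perm (Fin N)) (Z : Finset (Fin N)) :
    (Z.map τ.symm.toEmbedding).map τ.toEmbedding = Z := by
  rw [Finset.map_map]
  ext i
  simp

theorem mem_mp {N : ℕ} {τ : Equiv.Perm (Fin N)} {S : Finset (Finset (Fin N))}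
    {m : Finset (Fin N)} : m ∈ mp τ S ↔ m.map τ.symm.toEmbedding ∈ S := by
  unfold mp
  rw [mem_image]
  constructor
  · rintro ⟨m', hm', rfl⟩
    have : (m'.map τ.toEmbedding).map τ.symm.toEmbedding = m' := by
      have := map_symm_map τ.symm m'
      rwa [Equiv.symm_symm] at this
    rwa [this]
  · intro h
    exact ⟨_, h, map_symm_map τ m⟩

theorem Inst.map {N B : ℕ} {pS pC : Finset (Fin N) → Prop} {S C : Finset (Finset (Fin N))}
    (h : Inst N B pS pC S C) (τ : Equiv.Perm (Fin N))
    (hpS : ∀ m, pS m → pS (m.map τ.toEmbedding))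
    (hpC : ∀ m, pC m → pC (m.map τ.toEmbedding)) :
    Inst N B pS pC (mp τ S) (mp τ C) := by
  constructor
  · intro m hm
    unfold mp at hm
    obtain ⟨m', hm', rfl⟩ := mem_image.mp hm
    exact hpS _ (h.hS m' hm')
  · intro m hm
    unfold mp at hm
    obtain ⟨m', hm', rfl⟩ := mem_image.mp hm
    exact hpC _ (h.hC m' hm')
  · intro m hm c hc hd
    unfold mp at hm hc
    obtain ⟨m', hm', rfl⟩ := mem_image.mp hm
    obtain ⟨c', hc', rfl⟩ := mem_image.mp hc
    rw [Finset.disjoint_map] at hd
    exact h.meet m' hm' c' hc' hd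
  · intro Z
    rcases h.cover (Z.map τ.symm.toEmbedding) with ⟨m, hm, hmZ⟩ | ⟨c, hc, hcZ⟩
    · left
      refine ⟨m.map τ.toEmbedding, mem_image_of_mem _ hm, ?_⟩
      rw [← map_symm_map τ Z]
      exact Finset.map_subset_map.mpr hmZ
    · right
      refine ⟨c.map τ.toEmbedding, mem_image_of_mem _ hc, ?_⟩
      rw [← map_symm_map τ Z, Finset.disjoint_map]
      exact hcZ
  · intro m hm c hc hd
    unfold mp at hm hc
    obtain ⟨m', hm', rfl⟩ := mem_image.mp hm
    obtain ⟨c', hc', rfl⟩ := mem_image.mp hc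
    rw [h.antiS m' hm' c' hc' (Finset.map_subset_map.mp hd)]
  · intro m hm c hc hd
    unfold mp at hm hc
    obtain ⟨m', hm', rfl⟩ := mem_image.mp hm
    obtain ⟨c', hc', rfl⟩ := mem_image.mp hc
    rw [h.antiC m' hm' c' hc' (Finset.map_subset_map.mp hd)]
  · have h1 : (mp τ S).card ≤ S.card := card_image_le
    have h2 : (mp τ C).card ≤ C.card := card_image_le
    have := h.card
    omega

/-- `S` contains no copy of the family `fl` (void if `fl` is empty). -/
def XF (N : ℕ) (fl : List ℕ) (S : Finset (Finset (Fin N))) : Prop :=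
  fl = [] ∨ ¬ ∃ σ : Equiv.Perm (Fin N), ∀ l ∈ fl, (dec N l).map σ.toEmbedding ∈ S

theorem XF.map {N : ℕ} {fl : List ℕ} {S : Finset (Finset (Fin N))} (h : XF N fl S)
    (τ : Equiv.Perm (Fin N)) : XF N fl (mp τ S) := by
  rcases h with h | h
  · exact Or.inl h
  · right
    rintro ⟨σ, hσ⟩
    apply h
    refine ⟨σ.trans τ.symm, fun l hl => ?_⟩
    have h1 := mem_mp.mp (hσ l hl)
    rw [Finset.map_map] at h1
    exact h1

/-- Refuted partial states. -/
def Ref (N B : ℕ) (pS pC : Finset (Fin N) → Prop) (fl : List ℕ) (p : List ℕ × List ℕ) : Prop :=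
  ∀ S C : Finset (Finset (Fin N)), Inst N B pS pC S C → XF N fl S →
    (∀ m ∈ p.1, dec N m ∈ S) → (∀ c ∈ p.2, dec N c ∈ C) → False

/-! ### The checker -/

/-- Membership test. -/
def memB (a : ℕ) : List ℕ → Bool
  | [] => false
  | b :: l => Nat.beq a b || memB a l

theorem memB_iff {a : ℕ} {l : List ℕ} : memB a l = true ↔ a ∈ l := by
  induction l with
  | nil => simp [memB]
  | cons b l ih =>
    unfold memB
    rw [Bool.or_eq_true, ih, Nat.beq_eq, List.mem_cons]

/-- Bitmask of a list of positions. -/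
def bits : List ℕ → ℕ
  | [] => 0
  | a :: l => Nat.lor (Nat.shiftLeft 1 a) (bits l)

theorem testBit_bits {x : ℕ} {l : List ℕ} : (bits l).testBit x = true ↔ x ∈ l := by
  induction l with
  | nil => simp [bits]
  | cons b l ih =>
    unfold bits
    have h1 : (Nat.lor (Nat.shiftLeft 1 b) (bits l)) = (1 <<< b) ||| bits l := rfl
    rw [h1, Nat.testBit_or, Bool.or_eq_true, ih, Nat.one_shiftLeft, Nat.testBit_two_pow,
      List.mem_cons, decide_eq_true_eq, eq_comm]

/-- Candidate `T` compatible with the known members `S` of its family and `C` of the other. -/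
def okM (S C : List ℕ) (T : ℕ) : Bool :=
  C.all (fun c => !(disj T c)) && S.all (fun s => Nat.beq s T || !(subm s T || subm T s))

/-- Options at `z`; those of the second family are shifted by `q`. -/
def opts (q : ℕ) (candS candC S C : List ℕ) (z : ℕ) : List ℕ :=
  candS.filter (fun T => subm T z && okM S C T) ++
    (candC.filter (fun T => disj T z && okM C S T)).map (fun T => T + q)

/-- Certificate nodes. -/
inductive Nd where
  | br (S C : List ℕ) (z : ℕ) (ch : List (ℕ × ℕ × ℕ))
  | pk (S C zs : List ℕ)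
  | fn (S : List ℕ) (P : ℕ)

/-- The state refuted by a node. -/
def Nd.st : Nd → List ℕ × List ℕ
  | .br S C _ _ => (S, C)
  | .pk S C _ => (S, C)
  | .fn S _ => (S, [])

/-- Table lookup. -/
def look : List (List ℕ × List ℕ) → ℕ → Option (List ℕ × List ℕ)
  | [], _ => none
  | a :: _, 0 => some a
  | _ :: l, n + 1 => look l n

/-- Admissible permutation. -/
def permOk (N q : ℕ) (anc : List ℕ) (P : ℕ) : Bool :=
  Nat.beq (pm N P (q - 1)) (q - 1) && anc.all (fun l => memB l (anc.map (pm N P)))

/-- Check of one child. -/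
def childOk (N q : ℕ) (anc : List ℕ) (tbl : List (List ℕ × List ℕ)) (S C : List ℕ)
    (o : ℕ) (c : ℕ × ℕ × ℕ) : Bool :=
  Nat.beq c.1 o && permOk N q anc c.2.2 &&
    (match look tbl c.2.1 with
    | none => false
    | some (Sj, Cj) =>
      bif Nat.ble q o then
        Sj.all (fun m => memB (pm N c.2.2 m) S) &&
          Cj.all (fun m => memB (pm N c.2.2 m) ((o - q) :: C))
      else
        Sj.all (fun m => memB (pm N c.2.2 m) (o :: S)) &&
          Cj.all (fun m => memB (pm N c.2.2 m) C))

/-- Check of a packing. -/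
def packOk (f : ℕ → List ℕ) : ℕ → List ℕ → Bool
  | _, [] => true
  | U, z :: zs => Nat.beq (Nat.land (bits (f z)) U) 0 && packOk f (Nat.lor (bits (f z)) U) zs

/-- No repetitions. -/
def nodupB : List ℕ → Bool
  | [] => true
  | a :: l => !(memB a l) && nodupB l

/-- Check of a node. -/
def nodeOk (N q B : ℕ) (candS candC anc fl : List ℕ) (tbl : List (List ℕ × List ℕ)) :
    Nd → Bool
  | .br S C z ch =>
    S.all (fun m => Nat.blt m q) && C.all (fun m => Nat.blt m q) &&
      (opts q candS candC S C z).all (fun o => ch.any (childOk N q anc tbl S C o))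
  | .pk S C zs =>
    S.all (fun m => Nat.blt m q) && C.all (fun m => Nat.blt m q) && nodupB S && nodupB C &&
      Nat.blt B (S.length + C.length + zs.length) &&
      packOk (opts q candS candC S C) (bits (S ++ C.map (fun T => T + q))) zs
  | .fn S P =>
    !(fl.isEmpty) && Nat.beq (pm N P (q - 1)) (q - 1) && fl.all (fun l => memB (pm N P l) S)

/-- Run the checker. -/
def run (N q B : ℕ) (candS candC anc fl : List ℕ) :
    List Nd → List (List ℕ × List ℕ) → Option (List (List ℕ × List ℕ))
  | [], t => some t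
  | nd :: r, t =>
    bif nodeOk N q B candS candC anc fl t nd then
      run N q B candS candC anc fl r (nd.st :: t)
    else none

/-- The certificate refutes the empty state. -/
def rootOk (N q B : ℕ) (candS candC anc fl : List ℕ) (nodes : List Nd) : Bool :=
  match run N q B candS candC anc fl nodes [] with
  | some (([], []) :: _) => true
  | _ => false

/-! ### Soundness -/

section sound

variable {N B : ℕ} {pS pC : Finset (Fin N) → Prop} {candS candC anc fl : List ℕ}

theorem okM_of {S0 C0 : List ℕ} {S C : Finset (Finset (Fin N))}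
    (meet : ∀ m ∈ S, ∀ c ∈ C, ¬ Disjoint m c)
    (anti : ∀ m ∈ S, ∀ m' ∈ S, m ⊆ m' → m = m')
    (hS0 : ∀ m ∈ S0, dec N m ∈ S) (hC0 : ∀ c ∈ C0, dec N c ∈ C)
    (hlt : ∀ m ∈ S0, m < 2 ^ N) {T : Finset (Fin N)} (hT : T ∈ S) :
    okM S0 C0 (enc T) = true := by
  unfold okM
  rw [Bool.and_eq_true, List.all_eq_true, List.all_eq_true]
  constructor
  · intro c hc
    rw [Bool.not_eq_true']
    by_contra h
    simp only [Bool.not_eq_false] at h
    have h1 := disj_dec (N := N) h
    rw [dec_enc] at h1
    exact meet T hT _ (hC0 c hc) h1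
  · intro s hs
    rw [Bool.or_eq_true, Nat.beq_eq, Bool.not_eq_true', Bool.or_eq_false_iff]
    by_cases he : s = enc T
    · exact Or.inl he
    · right
      have hne : dec N s ≠ T := by
        intro h
        apply he
        rw [← h, enc_dec (hlt s hs)]
      constructor
      · by_contra h
        simp only [Bool.not_eq_false] at h
        have h1 := subm_dec (N := N) h
        rw [dec_enc] at h1
        exact hne (anti _ (hS0 s hs) _ hT h1)
      · by_contra h
        simp only [Bool.not_eq_false] at h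
        have h1 := subm_dec (N := N) h
        rw [dec_enc] at h1
        exact hne (anti _ hT _ (hS0 s hs) h1).symm

theorem opts_of (hcS : ∀ m : Finset (Fin N), pS m → enc m ∈ candS)
    (hcC : ∀ m : Finset (Fin N), pC m → enc m ∈ candC)
    {S0 C0 : List ℕ} {S C : Finset (Finset (Fin N))} (hI : Inst N B pS pC S C)
    (hS0 : ∀ m ∈ S0, dec N m ∈ S) (hC0 : ∀ c ∈ C0, dec N c ∈ C)
    (hltS : ∀ m ∈ S0, m < 2 ^ N) (hltC : ∀ m ∈ C0, m < 2 ^ N) (z : ℕ) :
    (∃ T ∈ S, enc T ∈ opts (2 ^ N) candS candC S0 C0 z) ∨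
      (∃ T ∈ C, enc T + 2 ^ N ∈ opts (2 ^ N) candS candC S0 C0 z) := by
  unfold opts
  rcases hI.cover (dec N z) with ⟨m, hm, hmz⟩ | ⟨c, hc, hcz⟩
  · left
    refine ⟨m, hm, ?_⟩
    rw [List.mem_append, List.mem_filter]
    left
    refine ⟨hcS m (hI.hS m hm), ?_⟩
    rw [subm_enc hmz, okM_of hI.meet hI.antiS hS0 hC0 hltS hm]
    rfl
  · right
    refine ⟨c, hc, ?_⟩
    rw [List.mem_append, List.mem_map]
    right
    refine ⟨enc c, ?_, rfl⟩
    rw [List.mem_filter]
    refine ⟨hcC c (hI.hC c hc), ?_⟩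
    rw [disj_enc hcz, okM_of (fun m hm c hc h => hI.meet c hc m hm h.symm) hI.antiC hC0 hS0
      hltC hc]
    rfl

theorem look_mem {t : List (List ℕ × List ℕ)} {n : ℕ} {p : List ℕ × List ℕ}
    (h : look t n = some p) : p ∈ t := by
  induction t generalizing n with
  | nil => simp [look] at h
  | cons a l ih =>
    cases n with
    | zero =>
      simp only [look, Option.some.injEq] at h
      rw [h]
      exact List.mem_cons_self
    | succ n =>
      simp only [look] at h
      exact List.mem_cons_of_mem _ (ih h)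

theorem anc_inv {P : ℕ} (h : permOk N (2 ^ N) anc P = true) :
    ∃ σ : Equiv.Perm (Fin N), (∀ m, dec N (pm N P m) = (dec N m).map σ.toEmbedding) ∧
      ∀ l ∈ anc, ∃ l' ∈ anc, (dec N l).map σ.symm.toEmbedding = dec N l' := by
  unfold permOk at h
  rw [Bool.and_eq_true, Nat.beq_eq, List.all_eq_true] at h
  obtain ⟨σ, hσ⟩ := perm_of_pm h.1
  refine ⟨σ, dec_pm hσ, fun l hl => ?_⟩
  have h1 := h.2 l hl
  rw [memB_iff, List.mem_map] at h1
  obtain ⟨l', hl', he⟩ := h1
  refine ⟨l', hl', ?_⟩
  rw [← he, dec_pm hσ]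
  have := map_symm_map σ.symm (dec N l')
  rwa [Equiv.symm_symm] at this

theorem child_sound
    (hinvS : ∀ τ : Equiv.Perm (Fin N), (∀ l ∈ anc, ∃ l' ∈ anc,
      (dec N l).map τ.toEmbedding = dec N l') → ∀ m, pS m → pS (m.map τ.toEmbedding))
    (hinvC : ∀ τ : Equiv.Perm (Fin N), (∀ l ∈ anc, ∃ l' ∈ anc,
      (dec N l).map τ.toEmbedding = dec N l') → ∀ m, pC m → pC (m.map τ.toEmbedding))
    {P : ℕ} (hP : permOk N (2 ^ N) anc P = true) {Sj Cj S1 C1 : List ℕ}
    (hRef : Ref N B pS pC fl (Sj, Cj))
    (h1 : ∀ m ∈ Sj, pm N P m ∈ S1) (h2 : ∀ m ∈ Cj, pm N P m ∈ C1) :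
    Ref N B pS pC fl (S1, C1) := by
  intro S C hI hX hS hC
  obtain ⟨σ, hσ, hanc⟩ := anc_inv hP
  apply hRef (mp σ.symm S) (mp σ.symm C)
    (hI.map σ.symm (hinvS σ.symm hanc) (hinvC σ.symm hanc)) (hX.map σ.symm)
  · intro m hm
    rw [mem_mp, Equiv.symm_symm, ← hσ]
    exact hS _ (h1 m hm)
  · intro m hm
    rw [mem_mp, Equiv.symm_symm, ← hσ]
    exact hC _ (h2 m hm)

theorem nodupB_sound {l : List ℕ} (h : nodupB l = true) : l.Nodup := by
  induction l with
  | nil => exact List.nodup_nil
  | cons a l ih =>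
    unfold nodupB at h
    rw [Bool.and_eq_true, Bool.not_eq_true'] at h
    rw [List.nodup_cons]
    refine ⟨?_, ih h.2⟩
    intro hm
    have := memB_iff.mpr hm
    rw [h.1] at this
    exact Bool.false_ne_true this

theorem pack_sound {f : ℕ → List ℕ} {M : Finset ℕ}
    (hf : ∀ z, ∃ o ∈ f z, o ∈ M) (zs : List ℕ) : ∀ U : ℕ,
    packOk f U zs = true →
      (M.filter (fun x => U.testBit x = true)).card + zs.length ≤ M.card := by
  induction zs with
  | nil =>
    intro U _
    simpa using card_filter_le M _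
  | cons z zs ih =>
    intro U h
    unfold packOk at h
    rw [Bool.and_eq_true, Nat.beq_eq] at h
    have h1 := ih _ h.2
    have hor : Nat.lor (bits (f z)) U = bits (f z) ||| U := rfl
    rw [hor] at h1
    have hand : (bits (f z)) &&& U = 0 := h.1
    obtain ⟨o, ho, hoM⟩ := hf z
    have h2 : ¬ U.testBit o = true := by
      intro hU
      have h3 : ((bits (f z)) &&& U).testBit o = true := by
        rw [Nat.testBit_and, hU, testBit_bits.mpr ho]
        rfl
      rw [hand] at h3
      simp at h3
    have h3 : M.filter (fun x => U.testBit x = true) ⊂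
        M.filter (fun x => (bits (f z) ||| U).testBit x = true) := by
      rw [Finset.ssubset_iff_of_subset]
      · exact ⟨o, mem_filter.mpr ⟨hoM, by
          rw [Nat.testBit_or, testBit_bits.mpr ho]
          rfl⟩,
          fun hh => h2 (mem_filter.mp hh).2⟩
      · intro x hx
        rw [mem_filter] at *
        refine ⟨hx.1, ?_⟩
        rw [Nat.testBit_or, hx.2, Bool.or_true]
    have h4 := card_lt_card h3
    rw [List.length_cons]
    omega

theorem node_sound (hcS : ∀ m : Finset (Fin N), pS m → enc m ∈ candS)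
    (hcC : ∀ m : Finset (Fin N), pC m → enc m ∈ candC)
    (hinvS : ∀ τ : Equiv.Perm (Fin N), (∀ l ∈ anc, ∃ l' ∈ anc,
      (dec N l).map τ.toEmbedding = dec N l') → ∀ m, pS m → pS (m.map τ.toEmbedding))
    (hinvC : ∀ τ : Equiv.Perm (Fin N), (∀ l ∈ anc, ∃ l' ∈ anc,
      (dec N l).map τ.toEmbedding = dec N l') → ∀ m, pC m → pC (m.map τ.toEmbedding))
    {tbl : List (List ℕ × List ℕ)} (htbl : ∀ p ∈ tbl, Ref N B pS pC fl p) {nd : Nd}
    (h : nodeOk N (2 ^ N) B candS candC anc fl tbl nd = true) :
    Ref N B pS pC fl nd.st := by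
  cases nd with
  | br S0 C0 z ch =>
    unfold nodeOk at h
    rw [Bool.and_eq_true, Bool.and_eq_true, List.all_eq_true, List.all_eq_true,
      List.all_eq_true] at h
    obtain ⟨⟨hlS, hlC⟩, hop⟩ := h
    intro S C hI hX hS hC
    simp only [Nd.st] at hS hC
    have hltS : ∀ m ∈ S0, m < 2 ^ N := fun m hm => by
      have := hlS m hm
      rwa [Nat.blt_eq] at this
    have hltC : ∀ m ∈ C0, m < 2 ^ N := fun m hm => by
      have := hlC m hm
      rwa [Nat.blt_eq] at this
    rcases opts_of hcS hcC hI hS hC hltS hltC z with ⟨T, hT, ho⟩ | ⟨T, hT, ho⟩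
    · have h1 := hop _ ho
      rw [List.any_eq_true] at h1
      obtain ⟨c, -, hc⟩ := h1
      unfold childOk at hc
      rw [Bool.and_eq_true, Bool.and_eq_true, Nat.beq_eq] at hc
      obtain ⟨⟨hc1, hP⟩, hm⟩ := hc
      have hlt : Nat.ble (2 ^ N) (enc T) = false := by
        by_contra hh
        simp only [Bool.not_eq_false] at hh
        rw [Nat.ble_eq] at hh
        have := enc_lt T
        omega
      rw [hlt] at hm
      cases hlk : look tbl c.2.1 with
      | none => rw [hlk] at hm; exact Bool.false_ne_true hm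
      | some p =>
        obtain ⟨Sj, Cj⟩ := p
        rw [hlk] at hm
        simp only [cond_false] at hm
        rw [Bool.and_eq_true, List.all_eq_true, List.all_eq_true] at hm
        have hR := child_sound hinvS hinvC hP (htbl _ (look_mem hlk))
          (S1 := enc T :: S0) (C1 := C0)
          (fun m hmm => memB_iff.mp (hm.1 m hmm))
          (fun m hmm => memB_iff.mp (hm.2 m hmm))
        apply hR S C hI hX
        · intro m hmm
          rcases List.mem_cons.mp hmm with h3 | h3
          · rw [h3, dec_enc]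
            exact hT
          · exact hS m h3
        · exact hC
    · have h1 := hop _ ho
      rw [List.any_eq_true] at h1
      obtain ⟨c, -, hc⟩ := h1
      unfold childOk at hc
      rw [Bool.and_eq_true, Bool.and_eq_true, Nat.beq_eq] at hc
      obtain ⟨⟨hc1, hP⟩, hm⟩ := hc
      have hlt : Nat.ble (2 ^ N) (enc T + 2 ^ N) = true := by
        rw [Nat.ble_eq]
        omega
      rw [hlt] at hm
      cases hlk : look tbl c.2.1 with
      | none => rw [hlk] at hm; exact Bool.false_ne_true hm
      | some p =>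
        obtain ⟨Sj, Cj⟩ := p
        rw [hlk] at hm
        simp only [cond_true, Nat.add_sub_cancel] at hm
        rw [Bool.and_eq_true, List.all_eq_true, List.all_eq_true] at hm
        have hR := child_sound hinvS hinvC hP (htbl _ (look_mem hlk))
          (S1 := S0) (C1 := enc T :: C0)
          (fun m hmm => memB_iff.mp (hm.1 m hmm))
          (fun m hmm => memB_iff.mp (hm.2 m hmm))
        apply hR S C hI hX
        · exact hS
        · intro m hmm
          rcases List.mem_cons.mp hmm with h3 | h3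
          · rw [h3, dec_enc]
            exact hT
          · exact hC m h3
  | pk S0 C0 zs =>
    unfold nodeOk at h
    simp only [Bool.and_eq_true, List.all_eq_true] at h
    obtain ⟨⟨⟨⟨⟨hlS, hlC⟩, hnS⟩, hnC⟩, hB⟩, hp⟩ := h
    intro S C hI hX hS hC
    simp only [Nd.st] at hS hC
    have hltS : ∀ m ∈ S0, m < 2 ^ N := fun m hm => by
      have := hlS m hm
      rwa [Nat.blt_eq] at this
    have hltC : ∀ m ∈ C0, m < 2 ^ N := fun m hm => by
      have := hlC m hm
      rwa [Nat.blt_eq] at this
    let M : Finset ℕ := S.image enc ∪ C.image (fun T => enc T + 2 ^ N)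
    have hf : ∀ z, ∃ o ∈ opts (2 ^ N) candS candC S0 C0 z, o ∈ M := by
      intro z
      rcases opts_of hcS hcC hI hS hC hltS hltC z with ⟨T, hT, ho⟩ | ⟨T, hT, ho⟩
      · exact ⟨_, ho, mem_union_left _ (mem_image_of_mem _ hT)⟩
      · exact ⟨_, ho, mem_union_right _ (mem_image_of_mem (fun T => enc T + 2 ^ N) hT)⟩
    have h1 := pack_sound hf zs _ hp
    have h2 : M.card ≤ S.card + C.card := by
      refine (card_union_le _ _).trans ?_
      exact Nat.add_le_add card_image_le card_image_le
    have h3 : S0.length + C0.length ≤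
        (M.filter (fun x => (bits (S0 ++ C0.map (fun T => T + 2 ^ N))).testBit x = true)).card := by
      simp only [testBit_bits]
      have hnd : (S0 ++ C0.map (fun T => T + 2 ^ N)).Nodup := by
        rw [List.nodup_append']
        refine ⟨nodupB_sound hnS, (nodupB_sound hnC).map (fun a b hab => by
          simpa using hab), ?_⟩
        intro a ha ha'
        obtain ⟨b, hb, rfl⟩ := List.mem_map.mp ha'
        have := hltS _ ha
        omega
      have h4 : (S0 ++ C0.map (fun T => T + 2 ^ N)).toFinset ⊆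
          M.filter (fun x => x ∈ S0 ++ C0.map (fun T => T + 2 ^ N)) := by
        intro x hx
        rw [List.mem_toFinset] at hx
        rw [mem_filter]
        refine ⟨?_, hx⟩
        rcases List.mem_append.mp hx with h5 | h5
        · apply mem_union_left
          rw [mem_image]
          exact ⟨_, hS x h5, enc_dec (hltS x h5)⟩
        · obtain ⟨b, hb, rfl⟩ := List.mem_map.mp h5
          apply mem_union_right
          rw [mem_image]
          exact ⟨_, hC b hb, by rw [enc_dec (hltC b hb)]⟩
      have h5 := card_le_card h4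
      rw [List.toFinset_card_of_nodup hnd, List.length_append, List.length_map] at h5
      exact h5
    have h4 := hI.card
    rw [Nat.blt_eq] at hB
    omega
  | fn S0 P =>
    unfold nodeOk at h
    simp only [Bool.and_eq_true, List.all_eq_true] at h
    obtain ⟨⟨hfl, hP⟩, hall⟩ := h
    intro S C hI hX hS hC
    simp only [Nd.st] at hS hC
    rw [Nat.beq_eq] at hP
    obtain ⟨σ, hσ⟩ := perm_of_pm hP
    rcases hX with hX | hX
    · rw [hX] at hfl
      simp at hfl
    · apply hX
      refine ⟨σ, fun l hl => ?_⟩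
      rw [← dec_pm hσ]
      exact hS _ (memB_iff.mp (hall l hl))

theorem run_sound (hcS : ∀ m : Finset (Fin N), pS m → enc m ∈ candS)
    (hcC : ∀ m : Finset (Fin N), pC m → enc m ∈ candC)
    (hinvS : ∀ τ : Equiv.Perm (Fin N), (∀ l ∈ anc, ∃ l' ∈ anc,
      (dec N l).map τ.toEmbedding = dec N l') → ∀ m, pS m → pS (m.map τ.toEmbedding))
    (hinvC : ∀ τ : Equiv.Perm (Fin N), (∀ l ∈ anc, ∃ l' ∈ anc,
      (dec N l).map τ.toEmbedding = dec N l') → ∀ m, pC m → pC (m.map τ.toEmbedding))
    (nodes : List Nd) : ∀ t t' : List (List ℕ × List ℕ),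
    run N (2 ^ N) B candS candC anc fl nodes t = some t' →
    (∀ p ∈ t, Ref N B pS pC fl p) → ∀ p ∈ t', Ref N B pS pC fl p := by
  induction nodes with
  | nil =>
    intro t t' h ht
    simp only [run, Option.some.injEq] at h
    rw [← h]
    exact ht
  | cons nd r ih =>
    intro t t' h ht
    unfold run at h
    cases hn : nodeOk N (2 ^ N) B candS candC anc fl t nd with
    | false =>
      rw [hn] at h
      simp at h
    | true =>
      rw [hn, cond_true] at h
      apply ih _ _ h
      intro p hp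
      rcases List.mem_cons.mp hp with h1 | h1
      · rw [h1]
        exact node_sound hcS hcC hinvS hinvC ht hn
      · exact ht p h1

theorem root_sound (hcS : ∀ m : Finset (Fin N), pS m → enc m ∈ candS)
    (hcC : ∀ m : Finset (Fin N), pC m → enc m ∈ candC)
    (hinvS : ∀ τ : Equiv.Perm (Fin N), (∀ l ∈ anc, ∃ l' ∈ anc,
      (dec N l).map τ.toEmbedding = dec N l') → ∀ m, pS m → pS (m.map τ.toEmbedding))
    (hinvC : ∀ τ : Equiv.Perm (Fin N), (∀ l ∈ anc, ∃ l' ∈ anc,
      (dec N l).map τ.toEmbedding = dec N l') → ∀ m, pC m → pC (m.map τ.toEmbedding))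
    {nodes : List Nd} (h : rootOk N (2 ^ N) B candS candC anc fl nodes = true) :
    Ref N B pS pC fl ([], []) := by
  unfold rootOk at h
  split at h
  · next t ht =>
    exact run_sound hcS hcC hinvS hinvC nodes [] _ ht (by simp) _ List.mem_cons_self
  · exact absurd h Bool.false_ne_true

end sound

end Pool.Agent.LibSperner53
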