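import Mathlib

set_option autoImplicit false

/-!
Saturated k-Sperner families in the power set of `Fin n`, homogeneous atoms, the canonical
decomposition and flatness.
-/

namespace Pool.Agent.LibSperner53

open Finset

variable {n : ℕ}

/-- The family contains sets `c 0 ⊊ c 1 ⊊ … ⊊ c (m - 1)`. -/
def HasChain (m : ℕ) (F : Finset (Finset (Fin n))) : Prop :=
  ∃ c : Fin m → Finset (Fin n), StrictMono c ∧ ∀ i, c i ∈ F

/-- `F` is `k`-Sperner: it has no `k + 1` members forming a chain. -/
def KSperner (k : ℕ) (F : Finset (Finset (Fin n))) : Prop := ¬ HasChain (k + 1) F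

/-- `F` is a saturated `k`-Sperner family. -/
def Saturated (k : ℕ) (F : Finset (Finset (Fin n))) : Prop :=
  KSperner k F ∧ ∀ S, S ∉ F → HasChain (k + 1) (insert S F)

/-- The least size of a saturated `k`-Sperner family of subsets of `Fin n`. -/
noncomputable def sat (n k : ℕ) : ℕ :=
  sInf {m : ℕ | ∃ F : Finset (Finset (Fin n)), Saturated k F ∧ F.card = m}

/-- `F` is a saturated `k`-Sperner family of the least possible size. -/
def Optimal (k : ℕ) (F : Finset (Finset (Fin n))) : Prop :=
  Saturated k F ∧ F.card = sat n k

/-- `H` is a homogeneous atom of `F`: it is maximal with the property that every member of `F`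
meets it in nothing or in all of it, and it has at least two elements. -/
def HomAtom (F : Finset (Finset (Fin n))) (H : Finset (Fin n)) : Prop :=
  Maximal (fun A : Finset (Fin n) => ∀ S ∈ F, S ∩ A = ∅ ∨ S ∩ A = A) H ∧ 2 ≤ H.card

/-- The inclusion-minimal members of a family. -/
def minMembers (G : Finset (Finset (Fin n))) : Finset (Finset (Fin n)) :=
  G.filter (fun S => ∀ T ∈ G, ¬ T ⊂ S)

/-- What is left of `F` after the first `i` layers are removed. -/
def rest (F : Finset (Finset (Fin n))) : ℕ → Finset (Finset (Fin n))
  | 0 => F
  | i + 1 => rest F i \ minMembers (rest F i)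

/-- The `i`-th layer of the canonical decomposition of `F`. -/
def layer (F : Finset (Finset (Fin n))) (i : ℕ) : Finset (Finset (Fin n)) :=
  minMembers (rest F i)

/-- Flatness of a `k`-Sperner family: for the homogeneous atom `H` and every `i < k`, all small
members of the `i`-th layer have the same size and all large members of the `i`-th layer have the
same size. -/
def Flat (k : ℕ) (F : Finset (Finset (Fin n))) : Prop :=
  ∀ H, HomAtom F H → ∀ i, i < k → ∀ S ∈ layer F i, ∀ T ∈ layer F i,
    (S ∩ H = ∅ → T ∩ H = ∅ → S.card = T.card) ∧ (H ⊆ S → H ⊆ T → S.card = T.card)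

end Pool.Agent.LibSperner53
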