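import Pool.Agent.LibSperner53.Family

set_option autoImplicit false
set_option linter.unusedSectionVars false

/-!
A saturated 7-Sperner family with 55 members that is not flat.
-/

namespace Pool.Agent.LibSperner53

open Finset

/-- Small members of the example, by layer. -/
def exS : ℕ → List ℕ
  | 0 => [0]
  | 1 => [1, 32, 64, 128, 2]
  | 2 => [3, 17, 34, 48, 68, 72, 132, 136]
  | 3 => [74, 88, 133, 164, 259, 273, 290, 304]
  | 4 => [89, 106, 149, 166]
  | 5 => [91]
  | _ => []

/-- Complements of the large members of the example, by layer. -/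
def exC : ℕ → List ℕ
  | 1 => [227]
  | 2 => [225, 210, 45, 30]
  | 3 => [448, 392, 324, 268, 146, 97, 51, 41, 22]
  | 4 => [192, 136, 68, 48, 33, 18, 12, 3]
  | 5 => [1, 8, 16, 64, 2]
  | 6 => [0]
  | _ => []

theorem ex_lt : ∀ i < 7, (∀ m ∈ exS i, m < 2 ^ 9) ∧ ∀ m ∈ exC i, m < 2 ^ 9 := by
  decide

theorem ex_SS : ∀ i < 7, ∀ j < 7, ∀ a ∈ exS i, ∀ b ∈ exS j, subm a b = true → a ≠ b → i < j := by
  decide +kernel

theorem ex_SC : ∀ i < 7, ∀ j < 7, ∀ a ∈ exS i, ∀ b ∈ exC j, disj a b = true → i < j := by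
  decide +kernel

theorem ex_CC : ∀ i < 7, ∀ j < 7, ∀ a ∈ exC i, ∀ b ∈ exC j, subm b a = true → a ≠ b → i < j := by
  decide +kernel

theorem ex_stepS : ∀ i < 6, ∀ m ∈ exS (i + 1), ∃ m' ∈ exS i, subm m' m = true ∧ m' ≠ m := by
  decide +kernel

theorem ex_stepC : ∀ i < 6, ∀ m ∈ exC i, ∃ m' ∈ exC (i + 1), subm m' m = true ∧ m' ≠ m := by
  decide +kernel

theorem ex_sat : (List.range 512).all (fun z => (List.range 8).any (fun h =>
    (Nat.beq h 0 || (exS (h - 1)).any (fun m => subm m z)) &&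
      (Nat.beq h 7 || (exC h).any (fun c => disj c z)))) = true := by
  decide +kernel

theorem ex_cover : ∀ i : Fin 9, ∃ j < 7, ∃ m ∈ exS j, i ∈ dec 9 m := by
  decide +kernel

section

variable {n : ℕ} (h : 9 ≤ n)

/-- Embedding of subsets of the first nine points. -/
def E (s : Finset (Fin 9)) : Finset (Fin n) := s.map (Fin.castLEEmb h)

/-- The homogeneous atom of the example. -/
def H0 : Finset (Fin n) := (E h univ)ᶜ

/-- Membership in the `i`-th layer of the example. -/
def InL (i : ℕ) (S : Finset (Fin n)) : Prop :=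
  (∃ m ∈ exS i, E h (dec 9 m) = S) ∨ (∃ c ∈ exC i, (E h (dec 9 c))ᶜ = S)

/-- The example. -/
def ex : Finset (Finset (Fin n)) :=
  (range 7).biUnion (fun i => ((exS i).map (fun m => E h (dec 9 m))).toFinset ∪
    ((exC i).map (fun c => (E h (dec 9 c))ᶜ)).toFinset)

theorem mem_ex {S : Finset (Fin n)} : S ∈ ex h ↔ ∃ i < 7, InL h i S := by
  unfold ex InL
  simp only [mem_biUnion, mem_range, mem_union, List.mem_toFinset, List.mem_map]

theorem card_ex : (ex h).card ≤ 55 := by
  unfold ex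
  refine card_biUnion_le.trans ?_
  have h1 : ∀ i ∈ range 7, (((exS i).map (fun m => E h (dec 9 m))).toFinset ∪
      ((exC i).map (fun c => (E h (dec 9 c))ᶜ)).toFinset).card ≤
      (exS i).length + (exC i).length := by
    intro i _
    refine (card_union_le _ _).trans ?_
    apply Nat.add_le_add
    · refine (List.toFinset_card_le _).trans ?_
      rw [List.length_map]
    · refine (List.toFinset_card_le _).trans ?_
      rw [List.length_map]
  refine (sum_le_sum h1).trans ?_
  decide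

theorem E_sub {s t : Finset (Fin 9)} : E h s ⊆ E h t ↔ s ⊆ t := Finset.map_subset_map

theorem E_inj {s t : Finset (Fin 9)} (he : E h s = E h t) : s = t :=
  Finset.map_injective _ he

theorem E_disj {s t : Finset (Fin 9)} : Disjoint (E h s) (E h t) ↔ Disjoint s t :=
  Finset.disjoint_map _

theorem H0_card : (H0 h).card = n - 9 := by
  unfold H0 E
  rw [card_compl, card_map, card_univ, Fintype.card_fin, Fintype.card_fin]

theorem E_disj_H0 (s : Finset (Fin 9)) : Disjoint (E h s) (H0 h) := by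
  unfold H0
  rw [disjoint_compl_right_iff]
  exact (E_sub h).mpr (subset_univ _)

theorem H0_sub (s : Finset (Fin 9)) : H0 h ⊆ (E h s)ᶜ := by
  unfold H0
  exact compl_subset_compl.mpr ((E_sub h).mpr (subset_univ _))

variable (hn : 11 ≤ n)

include hn in
theorem H0_nonempty : (H0 h).Nonempty := by
  rw [← card_pos, H0_card]
  omega

include hn in
theorem InL_rank {i j : ℕ} (hi : i < 7) (hj : j < 7) {A B : Finset (Fin n)}
    (hA : InL h i A) (hB : InL h j B) (hAB : A ⊂ B) : i < j := by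
  obtain ⟨u, hu⟩ := H0_nonempty h hn
  rcases hA with ⟨a, ha, rfl⟩ | ⟨a, ha, rfl⟩
  · rcases hB with ⟨b, hb, rfl⟩ | ⟨b, hb, rfl⟩
    · apply ex_SS i hi j hj a ha b hb
      · have h1 : dec 9 a ⊆ dec 9 b := (E_sub h).mp hAB.1
        have h2 := subm_enc h1
        rwa [enc_dec ((ex_lt i hi).1 a ha)] at h2
      · rintro rfl
        exact hAB.2 (Subset.refl _)
    · apply ex_SC i hi j hj a ha b hb
      have h1 : Disjoint (E h (dec 9 a)) (E h (dec 9 b)) :=
        subset_compl_iff_disjoint_right.mp hAB.1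
      have h2 := disj_enc ((E_disj h).mp h1)
      rwa [enc_dec ((ex_lt i hi).1 a ha)] at h2
  · rcases hB with ⟨b, hb, rfl⟩ | ⟨b, hb, rfl⟩
    · exfalso
      have h1 := hAB.1 (H0_sub h _ hu)
      exact Finset.disjoint_left.mp (E_disj_H0 h _) h1 hu
    · apply ex_CC i hi j hj a ha b hb
      · have h1 : dec 9 b ⊆ dec 9 a := (E_sub h).mp (compl_subset_compl.mp hAB.1)
        have h2 := subm_enc h1
        rwa [enc_dec ((ex_lt j hj).2 b hb)] at h2
      · rintro rfl
        exact hAB.2 (Subset.refl _)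

include hn in
theorem below_le {i : ℕ} : ∀ {j : ℕ}, j < 7 → ∀ {S : Finset (Fin n)}, InL h j S →
    Below (ex h) i S → i ≤ j := by
  induction i with
  | zero => intro j _ S _ _; exact Nat.zero_le _
  | succ i ih =>
    rintro j hj S hS ⟨A, hA, hAS, hb⟩
    obtain ⟨j', hj', hAL⟩ := (mem_ex h).mp hA
    have h1 := ih hj' hAL hb
    have h2 := InL_rank h hn hj' hj hAL hS hAS
    omega

theorem ssub_of_subm {a b : ℕ} (ha : a < 2 ^ 9) (hb : b < 2 ^ 9) (h1 : subm a b = true)
    (h2 : a ≠ b) : E h (dec 9 a) ⊂ E h (dec 9 b) := by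
  rw [Finset.ssubset_iff_subset_ne]
  refine ⟨(E_sub h).mpr (subm_dec h1), fun h3 => h2 ?_⟩
  exact dec_inj ha hb (E_inj h h3)

theorem below_small {i : ℕ} : i < 7 → ∀ m ∈ exS i, Below (ex h) i (E h (dec 9 m)) := by
  induction i with
  | zero => intro _ m _; trivial
  | succ i ih =>
    intro hi m hm
    obtain ⟨m', hm', h1, h2⟩ := ex_stepS i (by omega) m hm
    refine ⟨E h (dec 9 m'), (mem_ex h).mpr ⟨i, by omega, Or.inl ⟨m', hm', rfl⟩⟩, ?_,
      ih (by omega) m' hm'⟩
    exact ssub_of_subm h ((ex_lt i (by omega)).1 m' hm') ((ex_lt (i + 1) hi).1 m hm) h1 h2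

theorem above_large {j : ℕ} : ∀ {i : ℕ}, i + j = 6 → ∀ c ∈ exC i,
    Above (ex h) j (E h (dec 9 c))ᶜ := by
  induction j with
  | zero => intro i _ c _; trivial
  | succ j ih =>
    intro i hij c hc
    obtain ⟨c', hc', h1, h2⟩ := ex_stepC i (by omega) c hc
    refine ⟨(E h (dec 9 c'))ᶜ, (mem_ex h).mpr ⟨i + 1, by omega, Or.inr ⟨c', hc', rfl⟩⟩, ?_,
      ih (by omega) c' hc'⟩
    exact compl_ssubset_compl.mpr (ssub_of_subm h ((ex_lt (i + 1) (by omega)).2 c' hc')
      ((ex_lt i (by omega)).2 c hc) h1 h2)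

include hn in
theorem sperner_ex : KSperner 7 (ex h) := by
  unfold KSperner
  rw [hasChain_iff]
  rintro ⟨S, hS, hb⟩
  obtain ⟨j, hj, hSL⟩ := (mem_ex h).mp hS
  have := below_le h hn hj hSL hb
  omega

include hn in
theorem saturated_ex : Saturated 7 (ex h) := by
  refine ⟨sperner_ex h hn, ?_⟩
  intro S hS
  -- the trace on the first nine points
  let s : Finset (Fin 9) := univ.filter (fun i => Fin.castLEEmb h i ∈ S)
  have key := ex_sat
  rw [List.all_eq_true] at key
  have h1 := key (enc s) (List.mem_range.mpr (enc_lt s))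
  rw [List.any_eq_true] at h1
  obtain ⟨t, ht, h2⟩ := h1
  rw [List.mem_range] at ht
  rw [Bool.and_eq_true, Bool.or_eq_true, Bool.or_eq_true, Nat.beq_eq, Nat.beq_eq,
    List.any_eq_true, List.any_eq_true] at h2
  obtain ⟨h3, h4⟩ := h2
  have hb : Below (ex h) t S := by
    rcases h3 with h3 | ⟨m, hm, hms⟩
    · rw [h3]; trivial
    · rcases Nat.eq_zero_or_pos t with h0 | h0
      · rw [h0]; trivial
      · obtain ⟨i, rfl⟩ : ∃ i, t = i + 1 := ⟨t - 1, by omega⟩
        rw [Nat.add_sub_cancel] at hm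
        have h5 : E h (dec 9 m) ∈ ex h := (mem_ex h).mpr ⟨i, by omega, Or.inl ⟨m, hm, rfl⟩⟩
        refine ⟨_, h5, ?_, below_small h (by omega) m hm⟩
        rw [Finset.ssubset_iff_subset_ne]
        refine ⟨?_, fun h6 => hS (h6 ▸ h5)⟩
        intro x hx
        obtain ⟨i, hi, rfl⟩ := mem_map.mp hx
        have h6 := subm_dec (N := 9) hms hi
        rw [dec_enc] at h6
        exact (mem_filter.mp h6).2
  have ha : Above (ex h) (7 - t) S := by
    rcases h4 with h4 | ⟨c, hc, hcs⟩
    · rw [h4]; trivial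
    · rcases Nat.lt_or_ge t 7 with h0 | h0
      · have h5 : (E h (dec 9 c))ᶜ ∈ ex h := (mem_ex h).mpr ⟨t, h0, Or.inr ⟨c, hc, rfl⟩⟩
        rw [show 7 - t = (6 - t) + 1 by omega]
        refine ⟨_, h5, ?_, above_large h (by omega) c hc⟩
        rw [Finset.ssubset_iff_subset_ne]
        refine ⟨?_, fun h6 => hS (h6 ▸ h5)⟩
        intro x hx
        rw [mem_compl]
        intro hxc
        obtain ⟨i, hi, rfl⟩ := mem_map.mp hxc
        have h6 := disj_dec (N := 9) hcs
        rw [dec_enc, Finset.disjoint_left] at h6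
        exact h6 hi (mem_filter.mpr ⟨mem_univ _, hx⟩)
      · rw [show 7 - t = 0 by omega]; trivial
  exact hasChain_mid (mem_insert_self _ _) (below_subset (subset_insert _ _) _ _ hb)
    (above_subset (subset_insert _ _) _ _ ha) (by omega)

include hn in
theorem homAtom_ex : HomAtom (ex h) (H0 h) := by
  obtain ⟨u, hu⟩ := H0_nonempty h hn
  refine ⟨⟨?_, ?_⟩, by rw [H0_card]; omega⟩
  · intro S hS
    obtain ⟨i, -, hL⟩ := (mem_ex h).mp hS
    rcases hL with ⟨m, -, rfl⟩ | ⟨c, -, rfl⟩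
    · left
      exact disjoint_iff_inter_eq_empty.mp (E_disj_H0 h _)
    · right
      exact inter_eq_right.mpr (H0_sub h _)
  · intro B hB hHB x hx
    by_contra hxH
    have hxE : x ∈ E h univ := by
      unfold H0 at hxH
      simpa using hxH
    obtain ⟨i, -, rfl⟩ := mem_map.mp hxE
    obtain ⟨j, hj, m, hm, him⟩ := ex_cover i
    have h1 : E h (dec 9 m) ∈ ex h := (mem_ex h).mpr ⟨j, hj, Or.inl ⟨m, hm, rfl⟩⟩
    have h2 : Fin.castLEEmb h i ∈ E h (dec 9 m) := mem_map_of_mem _ him
    rcases hB _ h1 with h3 | h3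
    · have : Fin.castLEEmb h i ∈ E h (dec 9 m) ∩ B := mem_inter.mpr ⟨h2, hx⟩
      rw [h3] at this
      exact absurd this (notMem_empty _)
    · have h4 : u ∈ E h (dec 9 m) ∩ B := by rw [h3]; exact hHB hu
      exact Finset.disjoint_left.mp (E_disj_H0 h _) (mem_inter.mp h4).1 hu

include hn in
theorem layer_three {c : ℕ} (hc : c ∈ exC 3) {m : ℕ} (hm : m ∈ exS 2)
    (hd : disj m c = true) : (E h (dec 9 c))ᶜ ∈ layer (ex h) 3 := by
  have hL : InL h 3 (E h (dec 9 c))ᶜ := Or.inr ⟨c, hc, rfl⟩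
  rw [mem_layer]
  refine ⟨(mem_ex h).mpr ⟨3, by omega, hL⟩, ?_, ?_⟩
  · refine ⟨E h (dec 9 m), (mem_ex h).mpr ⟨2, by omega, Or.inl ⟨m, hm, rfl⟩⟩, ?_,
      below_small h (i := 2) (by norm_num) m hm⟩
    obtain ⟨u, hu⟩ := H0_nonempty h hn
    rw [Finset.ssubset_iff_of_subset]
    · exact ⟨u, H0_sub h _ hu, fun h1 => Finset.disjoint_left.mp (E_disj_H0 h _) h1 hu⟩
    · apply subset_compl_iff_disjoint_right.mpr
      exact (E_disj h).mpr (disj_dec hd)
  · intro hb
    have := below_le h hn (j := 3) (by norm_num) hL hb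
    omega

include hn in
theorem not_flat_ex : ¬ Flat 7 (ex h) := by
  intro hflat
  have h1 := layer_three h hn (c := 448) (by decide) (m := 3) (by decide) (by decide)
  have h2 := layer_three h hn (c := 51) (by decide) (m := 68) (by decide) (by decide)
  have h3 := (hflat (H0 h) (homAtom_ex h hn) 3 (by omega) _ h1 _ h2).2 (H0_sub h _) (H0_sub h _)
  rw [card_compl, card_compl] at h3
  unfold E at h3
  rw [card_map, card_map, card_dec, card_dec, Fintype.card_fin,
    show popc 9 448 = 3 by decide, show popc 9 51 = 4 by decide] at h3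
  omega

end

end Pool.Agent.LibSperner53
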