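import Pool.Agent.LibSperner53.Bounds

set_option autoImplicit false
set_option linter.unusedSectionVars false

/-!
The role of the Fano plane, and the lower bound 55 for flat chains of length seven.
-/

namespace Pool.Agent.LibSperner53

open Finset

variable {α : Type*} [Fintype α] [DecidableEq α]

/-- The images of the seven lines belong to `T`. -/
def FanoIn (p : Fin 7 → α) (T : Finset (Finset α)) : Prop :=
  Function.Injective p ∧ ∀ l ∈ lns, (dec 7 l).image p ∈ T

theorem fano_block (T : Finset (Fin 7)) (h : ∀ l ∈ lns, ¬ Disjoint (dec 7 l) T) :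
    ∃ l ∈ lns, dec 7 l ⊆ T := by
  have key : (List.range 128).all (fun t => lns.any (fun l => disj l t) ||
      lns.any (fun l => subm l t)) = true := by decide +kernel
  rw [List.all_eq_true] at key
  have h1 := key (enc T) (List.mem_range.mpr (enc_lt T))
  rw [Bool.or_eq_true, List.any_eq_true, List.any_eq_true] at h1
  rcases h1 with ⟨l, hl, h2⟩ | ⟨l, hl, h2⟩
  · have h3 := disj_dec (N := 7) h2
    rw [dec_enc] at h3
    exact absurd h3 (h l hl)
  · have h3 := subm_dec (N := 7) h2
    rw [dec_enc] at h3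
    exact ⟨l, hl, h3⟩

theorem line_cast : ∀ l ∈ lns, dec 9 l = (dec 7 l).image (Fin.castLE (by norm_num)) := by
  decide +kernel

theorem line_card : ∀ l ∈ lns, (dec 7 l).card = 3 := by
  decide +kernel

theorem line_cover : ∀ i : Fin 7, ∃ l ∈ lns, i ∈ dec 7 l := by
  decide +kernel

theorem fano_clause {f : Finset α → Prop} (hf : Mon f) {p : Fin 7 → α}
    (h : FanoIn p (mt f)) {c : Finset α} (hc : c ∈ cl f) :
    ∃ l ∈ lns, (dec 7 l).image p ⊆ c := by
  obtain ⟨l, hl, h1⟩ := fano_block (univ.filter (fun i => p i ∈ c)) (by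
    intro l hl hd
    apply mt_cl_inter hf (h.2 l hl) hc
    rw [Finset.disjoint_left]
    intro v hv hvc
    obtain ⟨i, hi, rfl⟩ := mem_image.mp hv
    exact Finset.disjoint_left.mp hd hi (mem_filter.mpr ⟨mem_univ _, hvc⟩))
  refine ⟨l, hl, ?_⟩
  intro v hv
  obtain ⟨i, hi, rfl⟩ := mem_image.mp hv
  exact (mem_filter.mp (h1 hi)).2

theorem eq_of_image {β : Type*} [DecidableEq β] {U : Finset α} {e : α → β}
    (he : Set.InjOn e U) {s t : Finset α} (hs : s ⊆ U) (ht : t ⊆ U)
    (h : s.image e = t.image e) : s = t := by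
  ext v
  constructor
  · intro hv
    have h1 : e v ∈ t.image e := h ▸ mem_image_of_mem e hv
    obtain ⟨w, hw, hwv⟩ := mem_image.mp h1
    have := he (ht hw) (hs hv) hwv
    exact this ▸ hw
  · intro hv
    have h1 : e v ∈ s.image e := h ▸ mem_image_of_mem e hv
    obtain ⟨w, hw, hwv⟩ := mem_image.mp h1
    have := he (hs hw) (ht hv) hwv
    exact this ▸ hw

theorem fano_small {f : Finset α → Prop} (hf : Mon f) (h1 : ∀ m ∈ mt f, m.card = 3)
    (h2 : ∀ c ∈ cl f, c.card = 3) (h3 : tt f ≤ 16) (h9 : (supp f).card ≤ 9) :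
    ∃ p : Fin 7 → α, FanoIn p (mt f) := by
  obtain ⟨e, he⟩ := exists_inj (U := supp f) (N := 9) (by norm_num) h9
  have hg : Mon (tr (supp f) e f) := hf.tr _ e
  have hI : Inst 9 16 (fun m => m.card = 3) (fun m => m.card = 3)
      (mt (tr (supp f) e f)) (cl (tr (supp f) e f)) := by
    apply inst_of_mon hg
    · intro w hw
      obtain ⟨m, hm, hmU, rfl⟩ := mt_tr hf hw
      rw [card_image_of_sub he hmU]
      exact h1 m hm
    · intro w hw
      obtain ⟨m, hm, hmU, rfl⟩ := cl_tr hf (Subset.refl _) hw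
      rw [card_image_of_sub he hmU]
      exact h2 m hm
    · exact (tt_tr hf (Subset.refl (supp f)) e).trans h3
  have henc : ∀ m : Finset (Fin 9), m.card = 3 → enc m ∈ tri9 := by
    intro m hm
    rw [tri9_eq, List.mem_filter, List.mem_range]
    refine ⟨enc_lt m, ?_⟩
    rw [← card_dec, dec_enc, Nat.beq_eq]
    exact hm
  have hR := root_sound (N := 9) (B := 16) (pS := fun m => m.card = 3)
    (pC := fun m => m.card = 3) henc henc
    (by intro τ _ m hm; simpa using hm) (by intro τ _ m hm; simpa using hm) root33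
  have hX : ¬ XF 9 lns (mt (tr (supp f) e f)) := fun hX =>
    hR _ _ hI hX (by simp) (by simp)
  unfold XF at hX
  push Not at hX
  obtain ⟨-, σ, hσ⟩ := hX
  have hp : ∀ i : Fin 7, ∃ v ∈ supp f, e v = σ (Fin.castLE (by norm_num) i) := by
    intro i
    obtain ⟨l, hl, hil⟩ := line_cover i
    obtain ⟨m, hm, hmU, hme⟩ := mt_tr hf (hσ l hl)
    have h4 : σ (Fin.castLE (by norm_num) i) ∈ m.image e := by
      rw [hme, line_cast l hl]
      exact mem_map_of_mem σ.toEmbedding (mem_image_of_mem _ hil)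
    obtain ⟨v, hv, hvv⟩ := mem_image.mp h4
    exact ⟨v, hmU hv, hvv⟩
  choose p hpU hpe using hp
  refine ⟨p, ?_, ?_⟩
  · intro i j hij
    have h4 := hpe i
    rw [hij, hpe j] at h4
    have h5 := σ.injective h4
    exact (Fin.castLE_injective (by norm_num) h5).symm
  · intro l hl
    obtain ⟨m, hm, hmU, hme⟩ := mt_tr hf (hσ l hl)
    have h4 : (dec 7 l).image p = m := by
      apply eq_of_image he _ hmU
      · rw [hme, line_cast l hl]
        ext w
        simp only [mem_image, mem_map, Equiv.coe_toEmbedding, exists_exists_and_eq_and]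
        constructor
        · rintro ⟨i, hi, rfl⟩
          exact ⟨i, hi, (hpe i).symm⟩
        · rintro ⟨i, hi, rfl⟩
          exact ⟨i, hi, hpe i⟩
      · intro v hv
        obtain ⟨i, -, rfl⟩ := mem_image.mp hv
        exact hpU i
    rw [h4]
    exact hm

theorem exists_apart {f : Finset α → Prop} (h1 : ∀ m ∈ mt f, m.card = 3)
    (h2 : ∀ c ∈ cl f, c.card = 3) (h3 : tt f ≤ 16) (h10 : 10 ≤ (supp f).card) :
    ∃ x ∈ supp f, ∃ y ∈ supp f, x ≠ y ∧ (∀ m ∈ mt f, ¬ (x ∈ m ∧ y ∈ m)) ∧
      ∀ m ∈ cl f, ¬ (x ∈ m ∧ y ∈ m) := by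
  by_contra hno
  push Not at hno
  have hcov : ∀ x ∈ supp f, ∀ y ∈ supp f, x ≠ y → ∃ t ∈ mt f ∪ cl f, x ∈ t ∧ y ∈ t := by
    intro x hx y hy hxy
    by_contra hc
    push Not at hc
    obtain ⟨c, hcc, hx', hy'⟩ := hno x hx y hy hxy (by
      intro m hm hxm
      exact hc m (mem_union_left _ hm) hxm)
    exact hc c (mem_union_right _ hcc) hx' hy'
  have h4 := deg_count (k := 3) (d := 4) (U := supp f) (T := mt f ∪ cl f) (by
    intro t ht
    rcases mem_union.mp ht with h | h
    · exact h1 t h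
    · exact h2 t h) (by omega) hcov
  have h5 : (mt f ∪ cl f).card ≤ 16 := (card_union_le _ _).trans h3
  omega

theorem supp_le_nine : ∀ n : ℕ, ∀ f : Finset α → Prop, Mon f → (∀ m ∈ mt f, m.card = 3) →
    (∀ c ∈ cl f, c.card = 3) → tt f ≤ 16 → (supp f).card = n + 10 → False := by
  intro n
  induction n with
  | zero =>
    intro f hf h1 h2 h3 hn
    obtain ⟨x, hx, y, hy, hxy, hm, hc⟩ := exists_apart h1 h2 h3 (by omega)
    have hg := hf.mg x y
    have g1 : ∀ m ∈ mt (mg x y f), m.card = 3 := by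
      intro m hmm
      obtain ⟨m0, hm0, rfl⟩ := mt_mg hf hxy hmm
      rw [card_img hxy (hm m0 hm0)]
      exact h1 m0 hm0
    have g2 : ∀ m ∈ cl (mg x y f), m.card = 3 := by
      intro m hmm
      obtain ⟨m0, hm0, rfl⟩ := cl_mg hf hxy hmm
      rw [card_img hxy (hc m0 hm0)]
      exact h2 m0 hm0
    have g3 : tt (mg x y f) ≤ 16 := (tt_mg hf hxy).trans h3
    have h5 := card_le_card (supp_mg hf hxy)
    rw [insert_eq_of_mem hx, card_erase_of_mem hy] at h5
    have h6 := card_le_card (supp_mg_uniform hf hxy h1 hm)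
    rw [card_erase_of_mem hy] at h6
    obtain ⟨p, hp⟩ := fano_small hg g1 g2 g3 (by omega)
    have h7 : supp (mg x y f) ⊆ univ.image p := by
      intro v hv
      rw [← supp_dual hg, mem_supp] at hv
      obtain ⟨c, hcc, hvc⟩ := hv
      obtain ⟨l, hl, hlc⟩ := fano_clause hg hp hcc
      have h8 : (dec 7 l).image p = c := by
        apply Finset.eq_of_subset_of_card_le hlc
        rw [card_image_of_injective _ hp.1, line_card l hl, g2 c hcc]
      rw [← h8] at hvc
      obtain ⟨i, -, rfl⟩ := mem_image.mp hvc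
      exact mem_image_of_mem _ (mem_univ _)
    have h8 := (card_le_card h7).trans card_image_le
    rw [card_univ, Fintype.card_fin] at h8
    omega
  | succ n ih =>
    intro f hf h1 h2 h3 hn
    obtain ⟨x, hx, y, hy, hxy, hm, hc⟩ := exists_apart h1 h2 h3 (by omega)
    have hg := hf.mg x y
    apply ih (mg x y f) hg
    · intro m hmm
      obtain ⟨m0, hm0, rfl⟩ := mt_mg hf hxy hmm
      rw [card_img hxy (hm m0 hm0)]
      exact h1 m0 hm0
    · intro m hmm
      obtain ⟨m0, hm0, rfl⟩ := cl_mg hf hxy hmm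
      rw [card_img hxy (hc m0 hm0)]
      exact h2 m0 hm0
    · exact (tt_mg hf hxy).trans h3
    · have h5 := card_le_card (supp_mg hf hxy)
      rw [insert_eq_of_mem hx, card_erase_of_mem hy] at h5
      have h6 := card_le_card (supp_mg_uniform hf hxy h1 hm)
      rw [card_erase_of_mem hy] at h6
      omega

theorem fano33 {f : Finset α → Prop} (hf : Mon f) (h1 : ∀ m ∈ mt f, m.card = 3)
    (h2 : ∀ c ∈ cl f, c.card = 3) (h3 : tt f ≤ 16) :
    ∃ p : Fin 7 → α, FanoIn p (mt f) := by
  apply fano_small hf h1 h2 h3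
  by_contra h
  push Not at h
  exact supp_le_nine ((supp f).card - 10) f hf h1 h2 h3 (by omega)

theorem fano_seven {p : Fin 7 → α} {T : Finset (Finset α)} (h : FanoIn p T) :
    7 ≤ T.card := by
  have h1 : (lns.map (fun l => (dec 7 l).image p)).toFinset ⊆ T := by
    intro t ht
    rw [List.mem_toFinset, List.mem_map] at ht
    obtain ⟨l, hl, rfl⟩ := ht
    exact h.2 l hl
  have h2 : (lns.map (fun l => (dec 7 l).image p)).Nodup := by
    apply List.Nodup.map_on _ (by decide)
    intro a ha b hb hab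
    have h3 := Finset.image_injective h.1 hab
    have hlt : ∀ l ∈ lns, l < 2 ^ 7 := by decide
    exact dec_inj (hlt a ha) (hlt b hb) h3
  have h3 := card_le_card h1
  rw [List.toFinset_card_of_nodup h2, List.length_map] at h3
  exact h3

theorem bound3 {f : Finset α → Prop} (hf : Mon f) (h1 : ∀ m ∈ mt f, m.card = 3)
    (h2 : ∀ c ∈ cl f, c.card = 3) : 14 ≤ tt f := by
  by_contra hlt
  obtain ⟨p, hp⟩ := fano33 hf h1 h2 (by omega)
  obtain ⟨q, hq⟩ := fano33 hf.dual h2 (by rw [cl_dual]; exact h1)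
    (by rw [tt_dual]; omega)
  have h3 := fano_seven hp
  have h4 := fano_seven hq
  rw [mt_dual] at h4
  unfold tt at hlt
  omega

/-! ### Pairs against quadruples containing a line -/

theorem exists_fano_inj {p : Fin 7 → α} (hp : Function.Injective p) {O : Finset α}
    (hO : O.card ≤ 2) (hd : ∀ i, p i ∉ O) :
    ∃ e : α → Fin 9, Set.InjOn e ((univ.image p ∪ O : Finset α) : Set α) ∧
      ∀ i, e (p i) = Fin.castLE (by norm_num) i := by
  classical
  obtain ⟨emb⟩ : Nonempty (O ↪ Fin 2) := by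
    apply Function.Embedding.nonempty_of_card_le
    simpa using hO
  let e : α → Fin 9 := fun v =>
    if h : ∃ i, p i = v then Fin.castLE (by norm_num) h.choose
    else if h' : v ∈ O then Fin.natAdd 7 (emb ⟨v, h'⟩) else 0
  have h1 : ∀ i, e (p i) = Fin.castLE (by norm_num) i := by
    intro i
    have h : ∃ j, p j = p i := ⟨i, rfl⟩
    have h2 : e (p i) = Fin.castLE (by norm_num) h.choose := by
      simp only [e]
      rw [dif_pos h]
    rw [h2, hp h.choose_spec]
  have h2 : ∀ v, ∀ h' : v ∈ O, e v = Fin.natAdd 7 (emb ⟨v, h'⟩) := by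
    intro v h'
    have h : ¬ ∃ i, p i = v := by
      rintro ⟨i, rfl⟩
      exact hd i h'
    simp only [e]
    rw [dif_neg h, dif_pos h']
  refine ⟨e, ?_, h1⟩
  intro a ha b hb hab
  rw [mem_coe, mem_union, mem_image] at ha hb
  rcases ha with ⟨i, -, rfl⟩ | ha
  · rcases hb with ⟨j, -, rfl⟩ | hb
    · rw [h1, h1] at hab
      rw [Fin.castLE_injective (by norm_num) hab]
    · rw [h1, h2 b hb] at hab
      have := congrArg Fin.val hab
      simp only [Fin.val_castLE, Fin.val_natAdd] at this
      have := i.2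
      omega
  · rcases hb with ⟨j, -, rfl⟩ | hb
    · rw [h1, h2 a ha] at hab
      have := congrArg Fin.val hab
      simp only [Fin.val_castLE, Fin.val_natAdd] at this
      have := j.2
      omega
    · rw [h2 a ha, h2 b hb] at hab
      have h3 := congrArg Fin.val hab
      simp only [Fin.val_natAdd] at h3
      have h4 : emb ⟨a, ha⟩ = emb ⟨b, hb⟩ := Fin.ext (by omega)
      exact congrArg Subtype.val (emb.injective h4)

/-- The predicate used on nine points. -/
def pF (m : Finset (Fin 9)) : Prop := m.card = 4 ∧ ∃ l ∈ lns, dec 9 l ⊆ m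

theorem bound24F_small {f : Finset α → Prop} (hf : Mon f) {p : Fin 7 → α}
    (hp : Function.Injective p) (h1 : ∀ m ∈ mt f, m.card = 2)
    (h2 : ∀ c ∈ cl f, c.card = 4 ∧ ∃ l ∈ lns, (dec 7 l).image p ⊆ c)
    (h3 : (supp f \ univ.image p).card ≤ 2) : 14 ≤ tt f := by
  by_contra hlt
  obtain ⟨e, he, hpe⟩ := exists_fano_inj hp h3 (by
    intro i hi
    rw [mem_sdiff] at hi
    exact hi.2 (mem_image_of_mem _ (mem_univ _)))
  rw [union_sdiff_self_eq_union] at he
  have hU : supp f ⊆ univ.image p ∪ supp f := subset_union_right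
  have hg : Mon (tr (univ.image p ∪ supp f) e f) := hf.tr _ e
  have hI : Inst 9 13 (fun m => m.card = 2) pF
      (mt (tr (univ.image p ∪ supp f) e f)) (cl (tr (univ.image p ∪ supp f) e f)) := by
    apply inst_of_mon hg
    · intro w hw
      obtain ⟨m, hm, hmU, rfl⟩ := mt_tr hf hw
      rw [card_image_of_sub he hmU]
      exact h1 m hm
    · intro w hw
      obtain ⟨m, hm, hmU, rfl⟩ := cl_tr hf hU hw
      refine ⟨?_, ?_⟩
      · rw [card_image_of_sub he hmU]
        exact (h2 m hm).1
      · obtain ⟨-, l, hl, hlm⟩ := h2 m hm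
        refine ⟨l, hl, ?_⟩
        rw [line_cast l hl]
        intro w hw
        obtain ⟨i, hi, rfl⟩ := mem_image.mp hw
        rw [← hpe]
        exact mem_image_of_mem _ (hlm (mem_image_of_mem _ hi))
    · have := tt_tr hf hU e
      omega
  have hlt9 : ∀ l ∈ lns, l < 2 ^ 9 := by decide
  have hR := root_sound (N := 9) (B := 13) (pS := fun m => m.card = 2)
    (pC := pF) (anc := lns) (by
      intro m hm
      rw [two9_eq, List.mem_filter, List.mem_range]
      refine ⟨enc_lt m, ?_⟩
      rw [← card_dec, dec_enc, Nat.beq_eq]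
      exact hm) (by
      intro m hm
      obtain ⟨hm1, l, hl, hlm⟩ := hm
      rw [four9_eq, List.mem_filter, List.mem_range]
      refine ⟨enc_lt m, ?_⟩
      rw [Bool.and_eq_true, List.any_eq_true]
      constructor
      · rw [← card_dec, dec_enc, Nat.beq_eq]
        exact hm1
      · refine ⟨l, hl, ?_⟩
        rw [← enc_dec (hlt9 l hl)]
        apply subm_enc
        rw [dec_enc]
        exact hlm)
    (by intro τ _ m hm; simpa using hm) (by
      intro τ hτ m hm
      obtain ⟨hm1, l, hl, hlm⟩ := hm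
      obtain ⟨l', hl', he'⟩ := hτ l hl
      refine ⟨by simpa using hm1, l', hl', ?_⟩
      rw [← he']
      exact Finset.map_subset_map.mpr hlm) rootF
  exact hR _ _ hI (Or.inl rfl) (by simp) (by simp)

theorem bound24F : ∀ n : ℕ, ∀ {f : Finset α → Prop}, Mon f → ∀ {p : Fin 7 → α},
    Function.Injective p → (∀ m ∈ mt f, m.card = 2) →
    (∀ c ∈ cl f, c.card = 4 ∧ ∃ l ∈ lns, (dec 7 l).image p ⊆ c) →
    (supp f \ univ.image p).card ≤ n → 14 ≤ tt f := by
  intro n
  induction n with
  | zero =>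
    intro f hf p hp h1 h2 h3
    exact bound24F_small hf hp h1 h2 (by omega)
  | succ n ih =>
    intro f hf p hp h1 h2 h3
    by_cases hsm : (supp f \ univ.image p).card ≤ 2
    · exact bound24F_small hf hp h1 h2 hsm
    push Not at hsm
    -- a dual minimal set has at most one element outside
    have hone : ∀ c ∈ cl f, ∀ u ∈ c, ∀ v ∈ c, u ∉ univ.image p → v ∉ univ.image p → u = v := by
      intro c hc u hu v hv hu' hv'
      obtain ⟨hc4, l, hl, hlc⟩ := h2 c hc
      have h4 : (c \ (dec 7 l).image p).card ≤ 1 := by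
        rw [card_sdiff_of_subset hlc, card_image_of_injective _ hp, line_card l hl, hc4]
      rw [card_le_one] at h4
      apply h4
      · rw [mem_sdiff]
        exact ⟨hu, fun h => hu' (image_subset_image (subset_univ _) h)⟩
      · rw [mem_sdiff]
        exact ⟨hv, fun h => hv' (image_subset_image (subset_univ _) h)⟩
    have hpair : ∃ x ∈ supp f \ univ.image p, ∃ y ∈ supp f \ univ.image p, x ≠ y ∧
        ∀ m ∈ mt f, ¬ (x ∈ m ∧ y ∈ m) := by
      by_contra hno
      push Not at hno
      obtain ⟨x, hx, y, hy, z, hz, hxy, hxz, hyz⟩ := Finset.two_lt_card.mp hsm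
      obtain ⟨c, hc⟩ := cl_nonempty_of_mt hf
        (fun m hm => card_pos.mp (by have := h1 m hm; omega))
      have hin : ∀ x ∈ supp f \ univ.image p, ∀ y ∈ supp f \ univ.image p, x ≠ y →
          x ∈ c ∨ y ∈ c := by
        intro x hx y hy hxy
        obtain ⟨m, hm, hxm, hym⟩ := hno x hx y hy hxy
        have h5 : ({x, y} : Finset α) = m := by
          apply Finset.eq_of_subset_of_card_le
          · intro w hw
            rw [mem_insert, mem_singleton] at hw
            rcases hw with rfl | rfl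
            · exact hxm
            · exact hym
          · rw [h1 m hm, card_pair hxy]
        have h6 := mt_cl_inter hf hm hc
        rw [← h5, Finset.not_disjoint_iff] at h6
        obtain ⟨w, hw, hwc⟩ := h6
        rw [mem_insert, mem_singleton] at hw
        rcases hw with rfl | rfl
        · exact Or.inl hwc
        · exact Or.inr hwc
      have ho := hone c hc
      have hx' := (mem_sdiff.mp hx).2
      have hy' := (mem_sdiff.mp hy).2
      have hz' := (mem_sdiff.mp hz).2
      rcases hin x hx y hy hxy with h | h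
      · rcases hin y hy z hz hyz with h' | h'
        · exact hxy (ho x h y h' hx' hy')
        · exact hxz (ho x h z h' hx' hz')
      · rcases hin x hx z hz hxz with h' | h'
        · exact hxy (ho x h' y h hx' hy')
        · exact hyz (ho y h z h' hy' hz')
    obtain ⟨x, hx, y, hy, hxy, hm⟩ := hpair
    rw [mem_sdiff] at hx hy
    have hc : ∀ c ∈ cl f, ¬ (x ∈ c ∧ y ∈ c) := fun c hc h =>
      hxy (hone c hc x h.1 y h.2 hx.2 hy.2)
    refine (ih (f := mg x y f) (hf.mg x y) hp ?_ ?_ ?_).trans (tt_mg hf hxy)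
    · intro m hmm
      obtain ⟨m0, hm0, rfl⟩ := mt_mg hf hxy hmm
      rw [card_img hxy (hm m0 hm0)]
      exact h1 m0 hm0
    · intro m hmm
      obtain ⟨m0, hm0, rfl⟩ := cl_mg hf hxy hmm
      rw [card_img hxy (hc m0 hm0)]
      obtain ⟨h4, l, hl, hlm⟩ := h2 m0 hm0
      refine ⟨h4, l, hl, ?_⟩
      intro v hv
      have hvm := hlm hv
      have hvy : v ≠ y := by
        rintro rfl
        exact hy.2 (image_subset_image (subset_univ _) hv)
      unfold img
      split_ifs
      · exact mem_insert.mpr (Or.inr (mem_erase.mpr ⟨hvy, hvm⟩))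
      · exact hvm
    · have h4 : supp (mg x y f) \ univ.image p ⊆ (supp f \ univ.image p).erase y := by
        intro v hv
        rw [mem_sdiff] at hv
        have h5 := supp_mg hf hxy hv.1
        rw [insert_eq_of_mem hx.1, mem_erase] at h5
        rw [mem_erase, mem_sdiff]
        exact ⟨h5.1, h5.2, hv.2⟩
      have h5 := card_le_card h4
      rw [card_erase_of_mem (mem_sdiff.mpr hy)] at h5
      omega

/-- The lower bound for the neighbour of a function containing the Fano plane. -/
theorem fano_next {f g : Finset α → Prop} (hf : Mon f) (hg : Mon g)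
    (hle : ∀ Z, g Z → f Z) (h1 : ∀ m ∈ mt f, m.card = 2) (h2 : ∀ c ∈ cl f, c.card = 4)
    {p : Fin 7 → α} (hp : FanoIn p (mt g)) : 14 ≤ tt f := by
  apply bound24F _ hf hp.1 h1 _ le_rfl
  intro c hc
  refine ⟨h2 c hc, ?_⟩
  have h3 : ¬ f cᶜ := (mem_mt.mp hc).1
  obtain ⟨c', hc', hcc⟩ := exists_cl (fun h => h3 (hle _ h) : ¬ g cᶜ)
  obtain ⟨l, hl, hlc⟩ := fano_clause hg hp hc'
  refine ⟨l, hl, hlc.trans ?_⟩
  have h4 := subset_compl_iff_disjoint_right.mpr hcc
  rwa [compl_compl] at h4

/-! ### The chain bound -/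

theorem flat_bound (f : ℕ → Finset α → Prop) (hmon : ∀ i, Mon (f i))
    (hle : ∀ i Z, f (i + 1) Z → f i Z)
    (hm : ∀ i, i < 6 → ∀ m ∈ mt (f (i + 1)), ∃ m' ∈ mt (f i), m' ⊂ m)
    (hc : ∀ i, i < 6 → ∀ c ∈ cl (f i), ∃ c' ∈ cl (f (i + 1)), c' ⊂ c)
    (h5 : f 5 univ) (h1 : ¬ f 1 ∅)
    (us : ∀ i, 1 ≤ i → i ≤ 5 → ∀ m ∈ mt (f i), ∀ m' ∈ mt (f i), m.card = m'.card)
    (uc : ∀ i, 1 ≤ i → i ≤ 5 → ∀ m ∈ cl (f i), ∀ m' ∈ cl (f i), m.card = m'.card) :
    55 ≤ ∑ i ∈ range 7, tt (f i) := by
  -- minimal sets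
  obtain ⟨m5, hm5, -⟩ := exists_mt h5
  obtain ⟨m4, hm4, l4⟩ := hm 4 (by omega) m5 hm5
  obtain ⟨m3, hm3, l3⟩ := hm 3 (by omega) m4 hm4
  obtain ⟨m2, hm2, l2⟩ := hm 2 (by omega) m3 hm3
  obtain ⟨m1, hm1, l1⟩ := hm 1 (by omega) m2 hm2
  obtain ⟨m0, hm0, l0⟩ := hm 0 (by omega) m1 hm1
  obtain ⟨c1, hc1, -⟩ := exists_cl h1
  obtain ⟨c2, hc2, k2⟩ := hc 1 (by omega) c1 hc1
  obtain ⟨c3, hc3, k3⟩ := hc 2 (by omega) c2 hc2
  obtain ⟨c4, hc4, k4⟩ := hc 3 (by omega) c3 hc3
  obtain ⟨c5, hc5, k5⟩ := hc 4 (by omega) c4 hc4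
  obtain ⟨c6, hc6, k6⟩ := hc 5 (by omega) c5 hc5
  have l0' := card_lt_card l0
  have l1' := card_lt_card l1
  have l2' := card_lt_card l2
  have l3' := card_lt_card l3
  have l4' := card_lt_card l4
  have k2' := card_lt_card k2
  have k3' := card_lt_card k3
  have k4' := card_lt_card k4
  have k5' := card_lt_card k5
  have k6' := card_lt_card k6
  have us2 : ∀ m ∈ mt (f 2), m.card = m2.card := fun m hm => us 2 (by omega) (by omega) m hm m2 hm2
  have us3 : ∀ m ∈ mt (f 3), m.card = m3.card := fun m hm => us 3 (by omega) (by omega) m hm m3 hm3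
  have us4 : ∀ m ∈ mt (f 4), m.card = m4.card := fun m hm => us 4 (by omega) (by omega) m hm m4 hm4
  have uc2 : ∀ m ∈ cl (f 2), m.card = c2.card := fun m hm => uc 2 (by omega) (by omega) m hm c2 hc2
  have uc3 : ∀ m ∈ cl (f 3), m.card = c3.card := fun m hm => uc 3 (by omega) (by omega) m hm c3 hc3
  have uc4 : ∀ m ∈ cl (f 4), m.card = c4.card := fun m hm => uc 4 (by omega) (by omega) m hm c4 hc4
  -- the outer layers
  have a0 := mt_or_cl (f 0)
  have a6 := mt_or_cl (f 6)
  have a1 : c2.card + 2 ≤ tt (f 1) := by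
    have h7 := card_le_mt (hmon 1) hc1
    have h8 := card_le_cl (hmon 1) hm1
    unfold tt
    omega
  have a5 : m4.card + 2 ≤ tt (f 5) := by
    have h7 := card_le_mt (hmon 5) hc5
    have h8 := card_le_cl (hmon 5) hm5
    unfold tt
    omega
  -- the second layer
  have a2 : (m2.card = 2 → 3 * c2.card + 4 ≤ tt (f 2) + c2.card) ∧
      (3 ≤ m2.card → 14 ≤ tt (f 2)) := by
    constructor
    · intro h
      have := bound2c (c := c2.card - 4) (hmon 2) (fun m hm => (us2 m hm).trans h)
        (fun d hd => by rw [uc2 d hd]; omega)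
      omega
    · intro h
      exact bound34 (hmon 2) (fun m hm => by rw [us2 m hm]; exact h)
        (fun d hd => by rw [uc2 d hd]; omega)
  have a4 : (c4.card = 2 → 3 * m4.card + 4 ≤ tt (f 4) + m4.card) ∧
      (3 ≤ c4.card → 14 ≤ tt (f 4)) := by
    constructor
    · intro h
      have := bound2c (c := m4.card - 4) (hmon 4).dual (fun m hm => (uc4 m hm).trans h)
        (fun d hd => by rw [cl_dual] at hd; rw [us4 d hd]; omega)
      rw [tt_dual] at this
      omega
    · intro h
      have := bound34 (hmon 4).dual (fun m hm => by rw [uc4 m hm]; exact h)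
        (fun d hd => by rw [cl_dual] at hd; rw [us4 d hd]; omega)
      rw [tt_dual] at this
      exact this
  -- the middle layer
  have a3 : 14 ≤ tt (f 3) := by
    by_cases h3 : m3.card = 3
    · by_cases h4 : c3.card = 3
      · exact bound3 (hmon 3) (fun m hm => (us3 m hm).trans h3) (fun m hm => (uc3 m hm).trans h4)
      · exact bound34 (hmon 3) (fun m hm => by rw [us3 m hm]; omega)
          (fun d hd => by rw [uc3 d hd]; omega)
    · exact bound43 (hmon 3) (fun m hm => by rw [us3 m hm]; omega)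
        (fun d hd => by rw [uc3 d hd]; omega)
  have hsum : ∑ i ∈ range 7, tt (f i) =
      tt (f 0) + tt (f 1) + tt (f 2) + tt (f 3) + tt (f 4) + tt (f 5) + tt (f 6) := by
    simp [sum_range_succ]
  rw [hsum]
  by_cases hcrit : m2.card = 2 ∧ c2.card = 4 ∧ m4.card = 4 ∧ c4.card = 2
  · obtain ⟨q1, q2, q3, q4⟩ := hcrit
    have b2 := a2.1 q1
    have b4 := a4.1 q4
    have h3 : m3.card = 3 := by omega
    have h4 : c3.card = 3 := by omega
    by_cases hbig : 17 ≤ tt (f 3)
    · omega
    · obtain ⟨p, hp⟩ := fano33 (hmon 3) (fun m hm => (us3 m hm).trans h3)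
        (fun m hm => (uc3 m hm).trans h4) (by omega)
      obtain ⟨p', hp'⟩ := fano33 (hmon 3).dual (fun m hm => (uc3 m hm).trans h4)
        (fun m hm => by rw [cl_dual] at hm; exact (us3 m hm).trans h3)
        (by rw [tt_dual]; omega)
      have d2 := fano_next (hmon 2) (hmon 3) (hle 2) (fun m hm => (us2 m hm).trans q1)
        (fun m hm => (uc2 m hm).trans q2) hp
      have d4 := fano_next (hmon 4).dual (hmon 3).dual
        (fun Z hZ h => hZ (hle 3 _ h)) (fun m hm => (uc4 m hm).trans q4)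
        (fun m hm => by rw [cl_dual] at hm; exact (us4 m hm).trans q3) hp'
      rw [tt_dual] at d4
      omega
  · by_cases e1 : m2.card = 2
    · have b2 := a2.1 e1
      by_cases e4 : c4.card = 2
      · have b4 := a4.1 e4
        have : ¬ (c2.card = 4 ∧ m4.card = 4) := fun h => hcrit ⟨e1, h.1, h.2, e4⟩
        omega
      · have b4 := a4.2 (by omega)
        omega
    · have b2 := a2.2 (by omega)
      by_cases e4 : c4.card = 2
      · have b4 := a4.1 e4
        omega
      · have b4 := a4.2 (by omega)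
        omega

end Pool.Agent.LibSperner53
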