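import Pool.Agent.LibSperner53.Defs
import Pool.Agent.LibSperner53.Fano

set_option autoImplicit false
set_option linter.unusedSectionVars false

/-!
Translation of saturated k-Sperner families with a homogeneous atom into monotone predicates.
-/

namespace Pool.Agent.LibSperner53

open Finset

variable {n : ℕ}

/-- `i` members of `F` form a chain strictly below `S`. -/
def Below (F : Finset (Finset (Fin n))) : ℕ → Finset (Fin n) → Prop
  | 0, _ => True
  | i + 1, S => ∃ A ∈ F, A ⊂ S ∧ Below F i A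

/-- `i` members of `F` form a chain strictly above `S`. -/
def Above (F : Finset (Finset (Fin n))) : ℕ → Finset (Fin n) → Prop
  | 0, _ => True
  | i + 1, S => ∃ A ∈ F, S ⊂ A ∧ Above F i A

theorem Below.mono {F : Finset (Finset (Fin n))} {i : ℕ} {S T : Finset (Fin n)}
    (h : Below F i S) (hST : S ⊆ T) : Below F i T := by
  cases i with
  | zero => trivial
  | succ i =>
    obtain ⟨A, hA, hAS, hb⟩ := h
    exact ⟨A, hA, lt_of_lt_of_le hAS hST, hb⟩

theorem Below.pred {F : Finset (Finset (Fin n))} : ∀ (i : ℕ) (S : Finset (Fin n)),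
    Below F (i + 1) S → Below F i S := by
  intro i
  induction i with
  | zero => intro S _; trivial
  | succ i ih =>
    rintro S ⟨A, hA, hAS, hb⟩
    exact ⟨A, hA, hAS, ih A hb⟩

theorem Below.le {F : Finset (Finset (Fin n))} {i j : ℕ} {S : Finset (Fin n)}
    (h : Below F j S) (hij : i ≤ j) : Below F i S := by
  induction j with
  | zero =>
    have : i = 0 := by omega
    subst this
    trivial
  | succ j ih =>
    rcases Nat.lt_or_ge j i with h1 | h1
    · have : i = j + 1 := by omega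
      rw [this]
      exact h
    · exact ih (Below.pred _ _ h) h1

theorem Above.pred {F : Finset (Finset (Fin n))} : ∀ (i : ℕ) (S : Finset (Fin n)),
    Above F (i + 1) S → Above F i S := by
  intro i
  induction i with
  | zero => intro S _; trivial
  | succ i ih =>
    rintro S ⟨A, hA, hAS, hb⟩
    exact ⟨A, hA, hAS, ih A hb⟩

theorem Above.le {F : Finset (Finset (Fin n))} {i j : ℕ} {S : Finset (Fin n)}
    (h : Above F j S) (hij : i ≤ j) : Above F i S := by
  induction j with
  | zero =>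
    have : i = 0 := by omega
    subst this
    trivial
  | succ j ih =>
    rcases Nat.lt_or_ge j i with h1 | h1
    · have : i = j + 1 := by omega
      rw [this]
      exact h
    · exact ih (Above.pred _ _ h) h1

theorem below_subset {F G : Finset (Finset (Fin n))} (h : F ⊆ G) :
    ∀ (i : ℕ) (S : Finset (Fin n)), Below F i S → Below G i S := by
  intro i
  induction i with
  | zero => intro S _; trivial
  | succ i ih =>
    rintro S ⟨A, hA, hAS, hb⟩
    exact ⟨A, h hA, hAS, ih A hb⟩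

theorem above_subset {F G : Finset (Finset (Fin n))} (h : F ⊆ G) :
    ∀ (i : ℕ) (S : Finset (Fin n)), Above F i S → Above G i S := by
  intro i
  induction i with
  | zero => intro S _; trivial
  | succ i ih =>
    rintro S ⟨A, hA, hAS, hb⟩
    exact ⟨A, h hA, hAS, ih A hb⟩

theorem chain_of_below {F : Finset (Finset (Fin n))} : ∀ (m : ℕ) (S : Finset (Fin n)),
    S ∈ F → Below F m S → ∃ c : Fin (m + 1) → Finset (Fin n), StrictMono c ∧
      (∀ i, c i ∈ F) ∧ c (Fin.last m) = S := by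
  intro m
  induction m with
  | zero =>
    intro S hS _
    refine ⟨fun _ => S, ?_, fun _ => hS, rfl⟩
    intro a b hab
    have h1 := a.2
    have h2 := b.2
    have h3 : a.val < b.val := hab
    omega
  | succ m ih =>
    rintro S hS ⟨A, hA, hAS, hb⟩
    obtain ⟨c, hc, hcF, hcl⟩ := ih A hA hb
    refine ⟨Fin.snoc (α := fun _ => Finset (Fin n)) c S, ?_, ?_, ?_⟩
    · rw [Fin.strictMono_iff_lt_succ]
      intro i
      rw [Fin.snoc_castSucc]
      induction i using Fin.lastCases with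
      | last =>
        rw [Fin.succ_last, Fin.snoc_last, hcl]
        exact hAS
      | cast i =>
        rw [Fin.succ_castSucc, Fin.snoc_castSucc]
        exact hc (Fin.castSucc_lt_succ)
    · intro i
      induction i using Fin.lastCases with
      | last => rw [Fin.snoc_last]; exact hS
      | cast i => rw [Fin.snoc_castSucc]; exact hcF i
    · rw [Fin.snoc_last]

theorem hasChain_iff {F : Finset (Finset (Fin n))} {m : ℕ} :
    HasChain (m + 1) F ↔ ∃ S ∈ F, Below F m S := by
  constructor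
  · rintro ⟨c, hc, hcF⟩
    have h : ∀ j : ℕ, ∀ hj : j < m + 1, Below F j (c ⟨j, hj⟩) := by
      intro j
      induction j with
      | zero => intro _; trivial
      | succ j ih =>
        intro hj
        exact ⟨c ⟨j, by omega⟩, hcF _, hc (by simp [Fin.lt_def]), ih (by omega)⟩
    exact ⟨c ⟨m, by omega⟩, hcF _, h m (by omega)⟩
  · rintro ⟨S, hS, hb⟩
    obtain ⟨c, hc, hcF, -⟩ := chain_of_below m S hS hb
    exact ⟨c, hc, hcF⟩

theorem below_mid {F : Finset (Finset (Fin n))} {b : ℕ} : ∀ {a : ℕ} {W : Finset (Fin n)},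
    W ∈ F → Below F a W → Above F b W → ∃ S ∈ F, Below F (a + b) S := by
  induction b with
  | zero => intro a W hW ha _; exact ⟨W, hW, ha⟩
  | succ b ih =>
    rintro a W hW ha ⟨B, hB, hWB, hb⟩
    obtain ⟨S, hS, h⟩ := ih (a := a + 1) hB ⟨W, hW, hWB, ha⟩ hb
    refine ⟨S, hS, ?_⟩
    rw [show a + (b + 1) = a + 1 + b by omega]
    exact h

theorem hasChain_mid {F : Finset (Finset (Fin n))} {a b k : ℕ} {W : Finset (Fin n)}
    (hW : W ∈ F) (ha : Below F a W) (hb : Above F b W) (hk : k ≤ a + b) :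
    HasChain (k + 1) F := by
  rw [hasChain_iff]
  obtain ⟨S, hS, h⟩ := below_mid hW ha hb
  exact ⟨S, hS, h.le hk⟩

theorem split_chain {F : Finset (Finset (Fin n))} {W : Finset (Fin n)} {k : ℕ}
    (hF : ¬ HasChain (k + 1) F) (h : HasChain (k + 1) (insert W F)) :
    ∃ a b, a + b = k ∧ Below F a W ∧ Above F b W := by
  obtain ⟨c, hc, hcF⟩ := h
  by_cases hW : ∃ t, c t = W
  · obtain ⟨t, ht⟩ := hW
    have hne : ∀ i, i ≠ t → c i ∈ F := by
      intro i hi
      rcases mem_insert.mp (hcF i) with h1 | h1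
      · rw [← ht] at h1
        exact absurd (hc.injective h1) hi
      · exact h1
    have h1 : ∀ j : ℕ, ∀ hj : j ≤ t.val, Below F j (c ⟨j, by have := t.2; omega⟩) := by
      intro j
      induction j with
      | zero => intro _; trivial
      | succ j ih =>
        intro hj
        refine ⟨c ⟨j, by have := t.2; omega⟩, hne _ ?_, hc (by simp [Fin.lt_def]), ih (by omega)⟩
        intro h2
        have := congrArg Fin.val h2
        simp only at this
        omega
    have h2 : ∀ d : ℕ, ∀ j : ℕ, ∀ hj : j < k + 1, t.val ≤ j → j + d = k →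
        Above F d (c ⟨j, hj⟩) := by
      intro d
      induction d with
      | zero => intro _ _ _ _; trivial
      | succ d ih =>
        intro j hj htj hjd
        refine ⟨c ⟨j + 1, by omega⟩, hne _ ?_, hc (by simp [Fin.lt_def]),
          ih (j + 1) (by omega) (by omega) (by omega)⟩
        intro h2
        have := congrArg Fin.val h2
        simp only at this
        omega
    have ht2 := t.2
    refine ⟨t.val, k - t.val, by omega, ?_, ?_⟩
    · have := h1 t.val le_rfl
      rwa [← ht]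
    · have := h2 (k - t.val) t.val t.2 le_rfl (by omega)
      rwa [← ht]
  · push Not at hW
    exfalso
    apply hF
    refine ⟨c, hc, fun i => ?_⟩
    rcases mem_insert.mp (hcF i) with h1 | h1
    · exact absurd h1 (hW i)
    · exact h1

/-! ### The predicates -/

/-- `F` has `i + 1` small members forming a chain inside `Z`. -/
def ins (F : Finset (Finset (Fin n))) (H : Finset (Fin n)) (i : ℕ) : Finset (Fin n) → Prop :=
  fun Z => ∃ A ∈ F, A ⊆ Z \ H ∧ Below F i A

/-- `F` has `j + 1` large members forming a chain, all containing `Z`. -/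
def out (F : Finset (Finset (Fin n))) (H : Finset (Fin n)) (j : ℕ) : Finset (Fin n) → Prop :=
  fun Z => ∃ B ∈ F, H ⊆ B ∧ Z ⊆ B ∧ Above F j B

theorem mon_ins (F : Finset (Finset (Fin n))) (H : Finset (Fin n)) (i : ℕ) :
    Mon (ins F H i) := by
  rintro Z Z' hZ ⟨A, hA, hAZ, hb⟩
  exact ⟨A, hA, hAZ.trans (sdiff_subset_sdiff hZ (Subset.refl _)), hb⟩

theorem ins_succ {F : Finset (Finset (Fin n))} {H : Finset (Fin n)} {i : ℕ}
    {Z : Finset (Fin n)} (h : ins F H (i + 1) Z) : ins F H i Z := by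
  obtain ⟨A, hA, hAZ, hb⟩ := h
  exact ⟨A, hA, hAZ, hb.pred⟩

section fam

variable {F : Finset (Finset (Fin n))} {H : Finset (Fin n)} {k : ℕ}

theorem ins_or_out (hF : Saturated k F) (hH : ∀ S ∈ F, S ∩ H = ∅ ∨ S ∩ H = H)
    (h2 : 2 ≤ H.card) {i j : ℕ} (hij : i + j + 1 = k) (Z : Finset (Fin n)) :
    ins F H i Z ∨ out F H j Z := by
  obtain ⟨u, hu, v, hv, huv⟩ := Finset.one_lt_card.mp h2
  have hWH : ∀ x ∈ insert u (Z \ H), x ∈ H → x = u := by
    intro x hx hxH
    rcases mem_insert.mp hx with h | h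
    · exact h
    · exact absurd hxH (mem_sdiff.mp h).2
  have hWF : insert u (Z \ H) ∉ F := by
    intro hW
    rcases hH _ hW with h | h
    · have : u ∈ insert u (Z \ H) ∩ H := mem_inter.mpr ⟨mem_insert_self _ _, hu⟩
      rw [h] at this
      exact absurd this (notMem_empty u)
    · have : v ∈ insert u (Z \ H) ∩ H := by rw [h]; exact hv
      rw [mem_inter] at this
      exact huv (hWH v this.1 hv).symm
  obtain ⟨a, b, hab, ha, hb⟩ := split_chain hF.1 (hF.2 _ hWF)
  rcases Nat.lt_or_ge i a with h | h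
  · left
    obtain ⟨A, hA, hAW, hAb⟩ := ha.le (show i + 1 ≤ a by omega)
    refine ⟨A, hA, ?_, hAb⟩
    intro x hx
    rcases mem_insert.mp (hAW.1 hx) with h1 | h1
    · exfalso
      rcases hH A hA with h3 | h3
      · have : x ∈ A ∩ H := mem_inter.mpr ⟨hx, h1 ▸ hu⟩
        rw [h3] at this
        exact absurd this (notMem_empty x)
      · have : v ∈ A ∩ H := by rw [h3]; exact hv
        rw [mem_inter] at this
        exact huv (hWH v (hAW.1 this.1) hv).symm
    · exact h1
  · right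
    obtain ⟨B, hB, hWB, hBb⟩ := hb.le (show j + 1 ≤ b by omega)
    have hHB : H ⊆ B := by
      rcases hH B hB with h3 | h3
      · have : u ∈ B ∩ H := mem_inter.mpr ⟨hWB.1 (mem_insert_self _ _), hu⟩
        rw [h3] at this
        exact absurd this (notMem_empty u)
      · intro x hx
        rw [← h3] at hx
        exact (mem_inter.mp hx).1
    refine ⟨B, hB, hHB, ?_, hBb⟩
    intro x hx
    by_cases hxH : x ∈ H
    · exact hHB hxH
    · exact hWB.1 (mem_insert_of_mem (mem_sdiff.mpr ⟨hx, hxH⟩))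

theorem ssubset_of_small_large {A B : Finset (Fin n)} (h2 : 2 ≤ H.card) {Z : Finset (Fin n)}
    (hA : A ⊆ Z \ H) (hHB : H ⊆ B) (hZB : Z ⊆ B) : A ⊂ B := by
  obtain ⟨u, hu⟩ : H.Nonempty := card_pos.mp (by omega)
  rw [Finset.ssubset_iff_of_subset (fun x hx => hZB (mem_sdiff.mp (hA hx)).1)]
  exact ⟨u, hHB hu, fun h => (mem_sdiff.mp (hA h)).2 hu⟩

theorem not_both (hF : Saturated k F) (h2 : 2 ≤ H.card) {i j : ℕ} (hij : i + j + 1 = k)
    {Z : Finset (Fin n)} (h : ins F H i Z) (h' : out F H j Z) : False := by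
  obtain ⟨A, hA, hAZ, hAb⟩ := h
  obtain ⟨B, hB, hHB, hZB, hBb⟩ := h'
  apply hF.1
  exact hasChain_mid (a := i + 1) (b := j) hB
    ⟨A, hA, ssubset_of_small_large h2 hAZ hHB hZB, hAb⟩ hBb (by omega)

theorem mt_ins {i : ℕ} {m : Finset (Fin n)} (hm : m ∈ mt (ins F H i)) :
    m ∈ F ∧ m ∩ H = ∅ ∧ Below F i m ∧ ¬ Below F (i + 1) m := by
  obtain ⟨⟨A, hA, hAm, hAb⟩, h2⟩ := mem_mt.mp hm
  have hAH : A ∩ H = ∅ := by
    rw [← disjoint_iff_inter_eq_empty, Finset.disjoint_left]
    intro x hx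
    exact (mem_sdiff.mp (hAm hx)).2
  have hAA : ∀ B : Finset (Fin n), B ∩ H = ∅ → B ⊆ B \ H := by
    intro B hB x hx
    rw [mem_sdiff]
    refine ⟨hx, fun h => ?_⟩
    have : x ∈ B ∩ H := mem_inter.mpr ⟨hx, h⟩
    rw [hB] at this
    exact absurd this (notMem_empty x)
  have h3 : A = m := by
    by_contra hne
    exact h2 A (Finset.ssubset_iff_subset_ne.mpr ⟨hAm.trans sdiff_subset, hne⟩)
      ⟨A, hA, hAA A hAH, hAb⟩
  subst h3
  refine ⟨hA, hAH, hAb, ?_⟩
  rintro ⟨B, hB, hBA, hBb⟩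
  have hBH : B ∩ H = ∅ := by
    rw [← disjoint_iff_inter_eq_empty] at *
    exact disjoint_of_subset_left hBA.1 hAH
  exact h2 B hBA ⟨B, hB, hAA B hBH, hBb⟩

theorem cl_ins (hF : Saturated k F) (hH : ∀ S ∈ F, S ∩ H = ∅ ∨ S ∩ H = H)
    (h2 : 2 ≤ H.card) {i j : ℕ} (hij : i + j + 1 = k) {c : Finset (Fin n)}
    (hc : c ∈ cl (ins F H i)) :
    cᶜ ∈ F ∧ H ⊆ cᶜ ∧ Below F i cᶜ ∧ ¬ Below F (i + 1) cᶜ ∧ Above F j cᶜ := by
  obtain ⟨hc1, hc2⟩ := mem_mt.mp hc
  have hc1' : ¬ ins F H i cᶜ := hc1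
  rcases ins_or_out hF hH h2 hij cᶜ with h | h
  · exact absurd h hc1'
  obtain ⟨B, hB, hHB, hcB, hBb⟩ := h
  have h3 : ¬ ins F H i B := fun h => not_both hF h2 hij h ⟨B, hB, hHB, Subset.refl _, hBb⟩
  have h4 : Bᶜ = c := by
    by_contra hne
    have h5 : Bᶜ ⊆ c := by
      rw [← compl_compl c]
      exact compl_subset_compl.mpr hcB
    apply hc2 Bᶜ (Finset.ssubset_iff_subset_ne.mpr ⟨h5, hne⟩)
    show ¬ ins F H i Bᶜᶜ
    rwa [compl_compl]
  have h5 : cᶜ = B := by rw [← h4, compl_compl]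
  rw [h5]
  refine ⟨hB, hHB, ?_, ?_, hBb⟩
  · cases i with
    | zero => trivial
    | succ i =>
      rcases ins_or_out (i := i) (j := j + 1) hF hH h2 (by omega) B with h | h
      · obtain ⟨A, hA, hAB, hAb⟩ := h
        exact ⟨A, hA, ssubset_of_small_large h2 hAB hHB (Subset.refl _), hAb⟩
      · exfalso
        obtain ⟨B', hB', hHB', hBB', B'', hB'', hB'B'', hb''⟩ := h
        have h6 : ¬ ins F H (i + 1) B'' := fun h =>
          not_both hF h2 hij h ⟨B'', hB'', hHB'.trans hB'B''.1, Subset.refl _, hb''⟩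
        have h7 : B''ᶜ ⊂ c := by
          rw [← h4]
          exact compl_ssubset_compl.mpr (lt_of_le_of_lt hBB' hB'B'')
        apply hc2 _ h7
        show ¬ ins F H (i + 1) B''ᶜᶜ
        rwa [compl_compl]
  · intro h
    apply hF.1
    exact hasChain_mid (a := i + 1) (b := j) hB h hBb (by omega)

/-! ### Layers -/

theorem mem_rest {i : ℕ} : ∀ {S : Finset (Fin n)}, S ∈ rest F i ↔ S ∈ F ∧ Below F i S := by
  induction i with
  | zero =>
    intro S
    exact ⟨fun h => ⟨h, trivial⟩, fun h => h.1⟩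
  | succ i ih =>
    intro S
    have h1 : S ∈ rest F (i + 1) ↔ S ∈ rest F i ∧ ∃ T ∈ rest F i, T ⊂ S := by
      show S ∈ rest F i \ minMembers (rest F i) ↔ _
      unfold minMembers
      rw [mem_sdiff, mem_filter]
      constructor
      · rintro ⟨h2, h3⟩
        refine ⟨h2, ?_⟩
        by_contra h4
        push Not at h4
        exact h3 ⟨h2, h4⟩
      · rintro ⟨h2, T, hT, hTS⟩
        exact ⟨h2, fun h3 => h3.2 T hT hTS⟩
    rw [h1, ih]
    constructor
    · rintro ⟨⟨h2, h3⟩, T, hT, hTS⟩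
      rw [ih] at hT
      exact ⟨h2, T, hT.1, hTS, hT.2⟩
    · rintro ⟨h2, T, hT, hTS, hTb⟩
      exact ⟨⟨h2, Below.pred _ _ ⟨T, hT, hTS, hTb⟩⟩, T, ih.mpr ⟨hT, hTb⟩, hTS⟩

theorem mem_layer {i : ℕ} {S : Finset (Fin n)} :
    S ∈ layer F i ↔ S ∈ F ∧ Below F i S ∧ ¬ Below F (i + 1) S := by
  unfold layer minMembers
  rw [mem_filter, mem_rest]
  constructor
  · rintro ⟨⟨h1, h2⟩, h3⟩
    refine ⟨h1, h2, ?_⟩
    rintro ⟨A, hA, hAS, hb⟩
    exact h3 A (mem_rest.mpr ⟨hA, hb⟩) hAS
  · rintro ⟨h1, h2, h3⟩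
    refine ⟨⟨h1, h2⟩, ?_⟩
    intro T hT hTS
    rw [mem_rest] at hT
    exact h3 ⟨T, hT.1, hTS, hT.2⟩

theorem sum_tt_le (hF : Saturated k F) (hH : ∀ S ∈ F, S ∩ H = ∅ ∨ S ∩ H = H)
    (h2 : 2 ≤ H.card) : ∑ i ∈ range k, tt (ins F H i) ≤ F.card := by
  let D : ℕ → Finset (Finset (Fin n)) := fun i =>
    mt (ins F H i) ∪ (cl (ins F H i)).image (fun c => cᶜ)
  have hlay : ∀ i ∈ range k, D i ⊆ layer F i := by
    intro i hi S hS
    rw [mem_range] at hi
    rw [mem_layer]
    rcases mem_union.mp hS with h | h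
    · have := mt_ins h
      exact ⟨this.1, this.2.2.1, this.2.2.2⟩
    · obtain ⟨c, hc, rfl⟩ := mem_image.mp h
      have := cl_ins (i := i) (j := k - 1 - i) hF hH h2 (by omega) hc
      exact ⟨this.1, this.2.2.1, this.2.2.2.1⟩
  have hcard : ∀ i ∈ range k, (D i).card = tt (ins F H i) := by
    intro i hi
    rw [mem_range] at hi
    unfold tt
    rw [card_union_of_disjoint, card_image_of_injective _ compl_injective]
    rw [Finset.disjoint_left]
    intro S hS hS'
    obtain ⟨c, hc, rfl⟩ := mem_image.mp hS'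
    have h3 := (mt_ins hS).2.1
    have h4 := (cl_ins (i := i) (j := k - 1 - i) hF hH h2 (by omega) hc).2.1
    rw [inter_eq_right.mpr h4] at h3
    rw [h3, card_empty] at h2
    omega
  have hdis : ∀ i ∈ range k, ∀ j ∈ range k, i ≠ j → Disjoint (D i) (D j) := by
    have key : ∀ i ∈ range k, ∀ j ∈ range k, i < j → Disjoint (D i) (D j) := by
      intro i hi j hj hij
      rw [Finset.disjoint_left]
      intro S hS hS'
      have h3 := mem_layer.mp (hlay i hi hS)
      have h4 := mem_layer.mp (hlay j hj hS')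
      exact h3.2.2 (h4.2.1.le hij)
    intro i hi j hj hij
    rcases Nat.lt_or_gt_of_ne hij with h | h
    · exact key i hi j hj h
    · exact (key j hj i hi h).symm
  have h3 : (range k).biUnion D ⊆ F := by
    intro S hS
    obtain ⟨i, hi, hSi⟩ := mem_biUnion.mp hS
    exact (mem_layer.mp (hlay i hi hSi)).1
  have h4 := card_le_card h3
  rw [card_biUnion hdis, sum_congr rfl hcard] at h4
  exact h4

theorem mt_step {i : ℕ} {m : Finset (Fin n)} (hm : m ∈ mt (ins F H (i + 1))) :
    ∃ m' ∈ mt (ins F H i), m' ⊂ m := by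
  obtain ⟨h1, h2, ⟨A, hA, hAm, hAb⟩, -⟩ := mt_ins hm
  have h3 : ins F H i A := by
    refine ⟨A, hA, ?_, hAb⟩
    intro x hx
    rw [mem_sdiff]
    refine ⟨hx, fun h => ?_⟩
    have : x ∈ m ∩ H := mem_inter.mpr ⟨hAm.1 hx, h⟩
    rw [h2] at this
    exact absurd this (notMem_empty x)
  obtain ⟨m', hm', hmA⟩ := exists_mt h3
  exact ⟨m', hm', lt_of_le_of_lt hmA hAm⟩

theorem cl_step (hF : Saturated k F) (hH : ∀ S ∈ F, S ∩ H = ∅ ∨ S ∩ H = H)
    (h2 : 2 ≤ H.card) {i j : ℕ} (hij : i + (j + 1) + 1 = k) {c : Finset (Fin n)}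
    (hc : c ∈ cl (ins F H i)) : ∃ c' ∈ cl (ins F H (i + 1)), c' ⊂ c := by
  obtain ⟨h1, h3, -, -, B, hB, hcB, hBb⟩ := cl_ins hF hH h2 hij hc
  have h4 : ¬ ins F H (i + 1) B := fun h =>
    not_both (i := i + 1) (j := j) hF h2 (by omega) h ⟨B, hB, h3.trans hcB.1, Subset.refl _, hBb⟩
  obtain ⟨c', hc', hd⟩ := exists_cl h4
  refine ⟨c', hc', ?_⟩
  have h5 : c' ⊆ Bᶜ := subset_compl_iff_disjoint_right.mpr hd
  refine lt_of_le_of_lt h5 ?_
  have h6 := compl_ssubset_compl.mpr hcB
  rwa [compl_compl] at h6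

end fam

theorem exists_homAtom {F : Finset (Finset (Fin n))} (h : 2 ^ F.card < n) :
    ∃ H, HomAtom F H := by
  obtain ⟨x, -, y, -, hxy, he⟩ := Finset.exists_ne_map_eq_of_card_lt_of_maps_to
    (s := (univ : Finset (Fin n))) (t := F.powerset) (f := fun x => F.filter (fun S => x ∈ S))
    (by rw [card_powerset, card_univ, Fintype.card_fin]; exact h)
    (by
      intro a _
      rw [mem_coe, mem_powerset]
      exact filter_subset _ _)
  let P : Finset (Fin n) → Prop := fun A => ∀ S ∈ F, S ∩ A = ∅ ∨ S ∩ A = A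
  have hP : P {x, y} := by
    intro S hS
    have h1 : x ∈ S ↔ y ∈ S := by
      have := Finset.ext_iff.mp he S
      simp only [mem_filter, hS, true_and] at this
      exact this
    by_cases hx : x ∈ S
    · right
      apply inter_eq_right.mpr
      intro z hz
      rw [mem_insert, mem_singleton] at hz
      rcases hz with rfl | rfl
      · exact hx
      · exact h1.mp hx
    · left
      rw [← disjoint_iff_inter_eq_empty, Finset.disjoint_right]
      intro z hz
      rw [mem_insert, mem_singleton] at hz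
      rcases hz with rfl | rfl
      · exact hx
      · exact fun h => hx (h1.mpr h)
  obtain ⟨H, hle, hH⟩ := (Set.toFinite {A : Finset (Fin n) | P A}).exists_le_maximal
    (a := ({x, y} : Finset (Fin n))) hP
  refine ⟨H, hH, ?_⟩
  have := card_le_card hle
  rw [card_pair hxy] at this
  exact this

/-- A flat saturated `7`-Sperner family with a homogeneous atom has at least 55 members. -/
theorem flat_ge {F : Finset (Finset (Fin n))} (hF : Saturated 7 F)
    {H : Finset (Fin n)} (hH : HomAtom F H) (hflat : Flat 7 F) : 55 ≤ F.card := by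
  have hprop := hH.1.1
  have h2 := hH.2
  refine le_trans ?_ (sum_tt_le hF hprop h2)
  apply flat_bound (fun i => ins F H i) (fun i => mon_ins F H i) (fun i Z h => ins_succ h)
  · intro i _ m hm
    exact mt_step hm
  · intro i hi c hc
    exact cl_step (j := 5 - i) hF hprop h2 (by omega) hc
  · rcases ins_or_out (i := 5) (j := 1) hF hprop h2 (by norm_num) univ with h | h
    · exact h
    · exfalso
      obtain ⟨B, -, -, hB, C, -, hBC, -⟩ := h
      have := lt_of_le_of_lt hB hBC
      exact this.2 (subset_univ _)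
  · rintro ⟨A, -, hA, C, -, hCA, -⟩
    have h3 : A ⊆ ∅ := hA.trans sdiff_subset
    exact (lt_of_lt_of_le hCA h3).2 (empty_subset _)
  · intro i hi1 hi5 m hm m' hm'
    have h3 := mt_ins hm
    have h4 := mt_ins hm'
    exact (hflat H hH i (by omega) m (mem_layer.mpr ⟨h3.1, h3.2.2⟩) m'
      (mem_layer.mpr ⟨h4.1, h4.2.2⟩)).1 h3.2.1 h4.2.1
  · intro i hi1 hi5 c hc c' hc'
    have h3 := cl_ins (j := 6 - i) hF hprop h2 (by omega) hc
    have h4 := cl_ins (j := 6 - i) hF hprop h2 (by omega) hc'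
    have h5 := (hflat H hH i (by omega) cᶜ (mem_layer.mpr ⟨h3.1, h3.2.2.1, h3.2.2.2.1⟩) c'ᶜ
      (mem_layer.mpr ⟨h4.1, h4.2.2.1, h4.2.2.2.1⟩)).2 h3.2.1 h4.2.1
    rw [card_compl, card_compl, Fintype.card_fin] at h5
    have h6 : c.card ≤ n := by simpa using card_le_univ c
    have h7 : c'.card ≤ n := by simpa using card_le_univ c'
    omega

end Pool.Agent.LibSperner53
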