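import Pool.Agent.LibSperner53.Mono

set_option autoImplicit false
set_option linter.unusedSectionVars false

/-!
Identification of two variables, and transfer of a predicate to another finite type.
-/

namespace Pool.Agent.LibSperner53

open Finset

variable {α : Type*} [Fintype α] [DecidableEq α]

/-- `y` copies `x`. -/
def rho (x y : α) (Z : Finset α) : Finset α := if x ∈ Z then insert y Z else Z.erase y

/-- `f` with `y` identified with `x`. -/
def mg (x y : α) (f : Finset α → Prop) : Finset α → Prop := fun Z => f (rho x y Z)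

/-- Image of a set when `y` is replaced by `x`. -/
def img (x y : α) (m : Finset α) : Finset α := if y ∈ m then insert x (m.erase y) else m

theorem rho_compl {x y : α} (hxy : x ≠ y) (Z : Finset α) : rho x y Zᶜ = (rho x y Z)ᶜ := by
  unfold rho
  by_cases hx : x ∈ Z
  · rw [if_neg (by simpa using hx), if_pos hx]
    ext z
    simp only [mem_erase, mem_compl, mem_insert, not_or]
  · rw [if_pos (by simpa using hx), if_neg hx]
    ext z
    simp only [mem_erase, mem_compl, mem_insert, not_and_or, not_not, ne_eq]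

theorem dual_mg {x y : α} (hxy : x ≠ y) (f : Finset α → Prop) :
    dual (mg x y f) = mg x y (dual f) := by
  funext Z
  show (¬ f (rho x y Zᶜ)) = (¬ f (rho x y Z)ᶜ)
  rw [rho_compl hxy]

theorem rho_mono {x y : α} {A B : Finset α} (h : A ⊆ B) : rho x y A ⊆ rho x y B := by
  unfold rho
  intro z hz
  by_cases hA : x ∈ A
  · rw [if_pos hA] at hz
    rw [if_pos (h hA)]
    rcases mem_insert.mp hz with h1 | h1
    · exact mem_insert.mpr (Or.inl h1)
    · exact mem_insert.mpr (Or.inr (h h1))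
  · rw [if_neg hA] at hz
    have hz' := mem_erase.mp hz
    by_cases hB : x ∈ B
    · rw [if_pos hB]
      exact mem_insert.mpr (Or.inr (h hz'.2))
    · rw [if_neg hB]
      exact mem_erase.mpr ⟨hz'.1, h hz'.2⟩

theorem Mon.mg {f : Finset α → Prop} (hf : Mon f) (x y : α) : Mon (mg x y f) := by
  intro A B hAB hA
  exact hf (rho_mono hAB) hA

theorem subset_rho_img {x y : α} (m : Finset α) : m ⊆ rho x y (img x y m) := by
  unfold rho img
  intro z hz
  by_cases hy : y ∈ m
  · rw [if_pos hy, if_pos (mem_insert_self _ _)]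
    by_cases hzy : z = y
    · exact mem_insert.mpr (Or.inl hzy)
    · exact mem_insert.mpr (Or.inr (mem_insert.mpr (Or.inr (mem_erase.mpr ⟨hzy, hz⟩))))
  · rw [if_neg hy]
    by_cases hx : x ∈ m
    · rw [if_pos hx]
      exact mem_insert.mpr (Or.inr hz)
    · rw [if_neg hx]
      exact mem_erase.mpr ⟨fun h => hy (h ▸ hz), hz⟩

theorem img_subset {x y : α} {m0 m : Finset α} (hxy : x ≠ y) (h : m0 ⊆ rho x y m) :
    img x y m0 ⊆ m := by
  unfold rho at h
  unfold img
  by_cases hy : y ∈ m0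
  · rw [if_pos hy]
    have hx : x ∈ m := by
      by_contra hx
      rw [if_neg hx] at h
      exact (mem_erase.mp (h hy)).1 rfl
    rw [if_pos hx] at h
    intro z hz
    rcases mem_insert.mp hz with h1 | h1
    · exact h1 ▸ hx
    · have h2 := mem_erase.mp h1
      rcases mem_insert.mp (h h2.2) with h3 | h3
      · exact absurd h3 h2.1
      · exact h3
  · rw [if_neg hy]
    intro z hz
    by_cases hx : x ∈ m
    · rw [if_pos hx] at h
      rcases mem_insert.mp (h hz) with h3 | h3
      · exact absurd (h3 ▸ hz) hy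
      · exact h3
    · rw [if_neg hx] at h
      exact (mem_erase.mp (h hz)).2

theorem mt_mg {f : Finset α → Prop} (hf : Mon f) {x y : α} (hxy : x ≠ y) {m : Finset α}
    (hm : m ∈ mt (mg x y f)) : ∃ m0 ∈ mt f, img x y m0 = m := by
  obtain ⟨h1, h2⟩ := mem_mt.mp hm
  have h1' : f (rho x y m) := h1
  obtain ⟨m0, hm0, hmm⟩ := exists_mt h1'
  refine ⟨m0, hm0, ?_⟩
  have h3 : img x y m0 ⊆ m := img_subset hxy hmm
  by_contra hne
  apply h2 _ (Finset.ssubset_iff_subset_ne.mpr ⟨h3, hne⟩)
  exact hf (subset_rho_img m0) (mem_mt.mp hm0).1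

theorem cl_mg {f : Finset α → Prop} (hf : Mon f) {x y : α} (hxy : x ≠ y) {c : Finset α}
    (hc : c ∈ cl (mg x y f)) : ∃ c0 ∈ cl f, img x y c0 = c := by
  unfold cl at hc
  rw [dual_mg hxy] at hc
  exact mt_mg hf.dual hxy hc

theorem tt_mg {f : Finset α → Prop} (hf : Mon f) {x y : α} (hxy : x ≠ y) :
    tt (mg x y f) ≤ tt f := by
  have h1 : mt (mg x y f) ⊆ (mt f).image (img x y) := by
    intro m hm
    obtain ⟨m0, h, h'⟩ := mt_mg hf hxy hm
    exact mem_image.mpr ⟨m0, h, h'⟩
  have h2 : cl (mg x y f) ⊆ (cl f).image (img x y) := by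
    intro m hm
    obtain ⟨m0, h, h'⟩ := cl_mg hf hxy hm
    exact mem_image.mpr ⟨m0, h, h'⟩
  have h3 := (card_le_card h1).trans card_image_le
  have h4 := (card_le_card h2).trans card_image_le
  unfold tt
  omega

theorem card_img {x y : α} (hxy : x ≠ y) {m : Finset α} (h : ¬ (x ∈ m ∧ y ∈ m)) :
    (img x y m).card = m.card := by
  unfold img
  by_cases hy : y ∈ m
  · rw [if_pos hy, card_insert_of_notMem, card_erase_of_mem hy]
    · have : 0 < m.card := card_pos.mpr ⟨y, hy⟩
      omega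
    · intro hx
      exact h ⟨(mem_erase.mp hx).2, hy⟩
  · rw [if_neg hy]

theorem card_img' {x y : α} (hxy : x ≠ y) {m : Finset α} (h : x ∈ m ∧ y ∈ m) :
    (img x y m).card = m.card - 1 := by
  unfold img
  rw [if_pos h.2, insert_eq_of_mem (mem_erase.mpr ⟨hxy, h.1⟩), card_erase_of_mem h.2]

theorem notMem_img {x y : α} (hxy : x ≠ y) (m : Finset α) : y ∉ img x y m := by
  unfold img
  by_cases hy : y ∈ m
  · rw [if_pos hy]
    intro h
    rcases mem_insert.mp h with h1 | h1
    · exact hxy h1.symm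
    · exact (mem_erase.mp h1).1 rfl
  · rwa [if_neg hy]

theorem supp_mg {f : Finset α → Prop} (hf : Mon f) {x y : α} (hxy : x ≠ y) :
    supp (mg x y f) ⊆ (insert x (supp f)).erase y := by
  intro z hz
  obtain ⟨m, hm, hzm⟩ := mem_supp.mp hz
  obtain ⟨m0, hm0, rfl⟩ := mt_mg hf hxy hm
  rw [mem_erase]
  refine ⟨fun h => notMem_img hxy m0 (h ▸ hzm), ?_⟩
  unfold img at hzm
  split_ifs at hzm with h
  · rcases mem_insert.mp hzm with h1 | h1
    · exact mem_insert.mpr (Or.inl h1)
    · exact mem_insert.mpr (Or.inr (mt_subset_supp hm0 (mem_erase.mp h1).2))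
  · exact mem_insert.mpr (Or.inr (mt_subset_supp hm0 hzm))

/-- In the uniform case images of minimal sets are minimal sets. -/
theorem img_mem_mt {f : Finset α → Prop} (hf : Mon f) {x y : α} (hxy : x ≠ y) {k : ℕ}
    (hk : ∀ m ∈ mt f, m.card = k) (hco : ∀ m ∈ mt f, ¬ (x ∈ m ∧ y ∈ m)) {m0 : Finset α}
    (hm0 : m0 ∈ mt f) : img x y m0 ∈ mt (mg x y f) := by
  have h1 : mg x y f (img x y m0) := hf (subset_rho_img m0) (mem_mt.mp hm0).1
  obtain ⟨m, hm, hmm⟩ := exists_mt h1
  obtain ⟨m1, hm1, h2⟩ := mt_mg hf hxy hm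
  have h3 : m.card = k := by
    rw [← h2, card_img hxy (hco m1 hm1), hk m1 hm1]
  have h4 : (img x y m0).card = k := by
    rw [card_img hxy (hco m0 hm0), hk m0 hm0]
  have h5 : m = img x y m0 := Finset.eq_of_subset_of_card_le hmm (by omega)
  rw [← h5]
  exact hm

theorem supp_mg_uniform {f : Finset α → Prop} (hf : Mon f) {x y : α} (hxy : x ≠ y) {k : ℕ}
    (hk : ∀ m ∈ mt f, m.card = k) (hco : ∀ m ∈ mt f, ¬ (x ∈ m ∧ y ∈ m)) :
    (supp f).erase y ⊆ supp (mg x y f) := by
  intro z hz
  rw [mem_erase] at hz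
  obtain ⟨m, hm, hzm⟩ := mem_supp.mp hz.2
  rw [mem_supp]
  refine ⟨_, img_mem_mt hf hxy hk hco hm, ?_⟩
  unfold img
  split_ifs with h
  · exact mem_insert.mpr (Or.inr (mem_erase.mpr ⟨hz.1, hzm⟩))
  · exact hzm

/-! ### Transfer -/

variable {β : Type*} [Fintype β] [DecidableEq β]

/-- Pull back a set along `e` inside `U`. -/
def pl (U : Finset α) (e : α → β) (W : Finset β) : Finset α := U.filter (fun v => e v ∈ W)

/-- Transfer of a predicate. -/
def tr (U : Finset α) (e : α → β) (f : Finset α → Prop) : Finset β → Prop :=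
  fun W => f (pl U e W)

theorem Mon.tr {f : Finset α → Prop} (hf : Mon f) (U : Finset α) (e : α → β) :
    Mon (tr U e f) := by
  intro A B hAB hA
  apply hf _ hA
  intro v hv
  unfold pl at *
  rw [mem_filter] at *
  exact ⟨hv.1, hAB hv.2⟩

theorem dual_tr {f : Finset α → Prop} (hf : Mon f) {U : Finset α} (hU : supp f ⊆ U)
    (e : α → β) : dual (tr U e f) = tr U e (dual f) := by
  funext W
  show (¬ f (pl U e Wᶜ)) = (¬ f (pl U e W)ᶜ)
  rw [← mon_inter hf hU (pl U e W)ᶜ]
  have : (pl U e W)ᶜ ∩ U = pl U e Wᶜ := by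
    ext v
    unfold pl
    simp only [mem_inter, mem_compl, mem_filter, not_and]
    tauto
  rw [this]

theorem mt_tr {f : Finset α → Prop} (hf : Mon f) {U : Finset α}
    {e : α → β} {w : Finset β} (hw : w ∈ mt (tr U e f)) :
    ∃ m ∈ mt f, m ⊆ U ∧ m.image e = w := by
  obtain ⟨h1, h2⟩ := mem_mt.mp hw
  have h1' : f (pl U e w) := h1
  obtain ⟨m, hm, hmm⟩ := exists_mt h1'
  have hmU : m ⊆ U := by
    intro v hv
    exact (mem_filter.mp (hmm hv)).1
  refine ⟨m, hm, hmU, ?_⟩
  have h3 : m.image e ⊆ w := by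
    intro b hb
    obtain ⟨v, hv, rfl⟩ := mem_image.mp hb
    exact (mem_filter.mp (hmm hv)).2
  by_contra hne
  apply h2 _ (Finset.ssubset_iff_subset_ne.mpr ⟨h3, hne⟩)
  apply hf _ (mem_mt.mp hm).1
  intro v hv
  exact mem_filter.mpr ⟨hmU hv, mem_image_of_mem _ hv⟩

theorem mt_tr' {f : Finset α → Prop} {U : Finset α} (hU : supp f ⊆ U)
    {e : α → β} (he : Set.InjOn e U) (hf : Mon f) {m : Finset α} (hm : m ∈ mt f) :
    m.image e ∈ mt (tr U e f) := by
  have hmU : m ⊆ U := (mt_subset_supp hm).trans hU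
  rw [mem_mt]
  constructor
  · apply hf _ (mem_mt.mp hm).1
    intro v hv
    exact mem_filter.mpr ⟨hmU hv, mem_image_of_mem _ hv⟩
  · intro w hw hfw
    have h1 : pl U e w ⊂ m := by
      rw [Finset.ssubset_iff_subset_ne]
      constructor
      · intro v hv
        obtain ⟨hvU, hvw⟩ := mem_filter.mp hv
        obtain ⟨v0, hv0, h⟩ := mem_image.mp (hw.1 hvw)
        have := he (hmU hv0) hvU h
        exact this ▸ hv0
      · intro heq
        obtain ⟨b, hb, hbw⟩ := Finset.exists_of_ssubset hw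
        obtain ⟨v, hv, rfl⟩ := mem_image.mp hb
        rw [← heq] at hv
        exact hbw (mem_filter.mp hv).2
    exact (mem_mt.mp hm).2 _ h1 hfw

theorem cl_tr {f : Finset α → Prop} (hf : Mon f) {U : Finset α} (hU : supp f ⊆ U)
    {e : α → β} {w : Finset β} (hw : w ∈ cl (tr U e f)) :
    ∃ c ∈ cl f, c ⊆ U ∧ c.image e = w := by
  unfold cl at hw
  rw [dual_tr hf hU] at hw
  exact mt_tr hf.dual hw

theorem cl_tr' {f : Finset α → Prop} {U : Finset α} (hU : supp f ⊆ U)
    {e : α → β} (he : Set.InjOn e U) (hf : Mon f) {c : Finset α} (hc : c ∈ cl f) :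
    c.image e ∈ cl (tr U e f) := by
  unfold cl
  rw [dual_tr hf hU]
  exact mt_tr' (by rw [supp_dual hf]; exact hU) he hf.dual hc

theorem tt_tr {f : Finset α → Prop} (hf : Mon f) {U : Finset α} (hU : supp f ⊆ U)
    (e : α → β) : tt (tr U e f) ≤ tt f := by
  have h1 : mt (tr U e f) ⊆ (mt f).image (fun m => m.image e) := by
    intro m hm
    obtain ⟨m0, h, -, h'⟩ := mt_tr hf hm
    exact mem_image.mpr ⟨m0, h, h'⟩
  have h2 : cl (tr U e f) ⊆ (cl f).image (fun m => m.image e) := by
    intro m hm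
    obtain ⟨m0, h, -, h'⟩ := cl_tr hf hU hm
    exact mem_image.mpr ⟨m0, h, h'⟩
  have h3 := (card_le_card h1).trans card_image_le
  have h4 := (card_le_card h2).trans card_image_le
  unfold tt
  omega

theorem card_image_of_sub {U : Finset α} {e : α → β} (he : Set.InjOn e U) {m : Finset α}
    (hm : m ⊆ U) : (m.image e).card = m.card :=
  card_image_of_injOn (he.mono (by exact_mod_cast hm))

end Pool.Agent.LibSperner53
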