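import Mathlib

set_option autoImplicit false

/-!
Monotone predicates on the subsets of a finite type, their minimal true sets (`mt`) and the
minimal true sets of the dual predicate (`cl`).
-/

namespace Pool.Agent.LibSperner53

open Finset

variable {α : Type*} [Fintype α] [DecidableEq α]

/-- Monotone predicate on subsets. -/
def Mon (f : Finset α → Prop) : Prop := ∀ ⦃A B : Finset α⦄, A ⊆ B → f A → f B

open Classical in
/-- Minimal true sets. -/
noncomputable def mt (f : Finset α → Prop) : Finset (Finset α) :=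
  univ.filter (fun m => f m ∧ ∀ m', m' ⊂ m → ¬ f m')

/-- The dual predicate. -/
def dual (f : Finset α → Prop) : Finset α → Prop := fun Z => ¬ f Zᶜ

/-- Minimal true sets of the dual. -/
noncomputable def cl (f : Finset α → Prop) : Finset (Finset α) := mt (dual f)

/-- Total number of minimal sets. -/
noncomputable def tt (f : Finset α → Prop) : ℕ := (mt f).card + (cl f).card

theorem mem_mt {f : Finset α → Prop} {m : Finset α} :
    m ∈ mt f ↔ f m ∧ ∀ m', m' ⊂ m → ¬ f m' := by
  simp [mt]

theorem dual_dual (f : Finset α → Prop) : dual (dual f) = f := by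
  funext Z
  simp [dual]

theorem cl_dual (f : Finset α → Prop) : cl (dual f) = mt f := by
  unfold cl
  rw [dual_dual]

theorem mt_dual (f : Finset α → Prop) : mt (dual f) = cl f := rfl

theorem tt_dual (f : Finset α → Prop) : tt (dual f) = tt f := by
  unfold tt
  rw [cl_dual, mt_dual, add_comm]

theorem Mon.dual {f : Finset α → Prop} (hf : Mon f) : Mon (dual f) := by
  intro A B hAB hA hB
  exact hA (hf (compl_subset_compl.mpr hAB) hB)

theorem exists_mt {f : Finset α → Prop} {Z : Finset α} (hZ : f Z) : ∃ m ∈ mt f, m ⊆ Z := by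
  induction Z using Finset.strongInduction with
  | H Z ih =>
    by_cases h : ∃ m', m' ⊂ Z ∧ f m'
    · obtain ⟨m', h1, h2⟩ := h
      obtain ⟨m, hm, hmm⟩ := ih m' h1 h2
      exact ⟨m, hm, hmm.trans h1.1⟩
    · push Not at h
      exact ⟨Z, mem_mt.mpr ⟨hZ, h⟩, Subset.refl _⟩

theorem exists_cl {f : Finset α → Prop} {Z : Finset α} (hZ : ¬ f Z) :
    ∃ c ∈ cl f, Disjoint c Z := by
  have h : LibSperner53.dual f Zᶜ := by
    simpa [LibSperner53.dual] using hZ
  obtain ⟨c, hc, hcc⟩ := exists_mt h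
  exact ⟨c, hc, by
    rwa [← subset_compl_iff_disjoint_right]⟩

theorem mt_cl_inter {f : Finset α → Prop} (hf : Mon f) {m c : Finset α} (hm : m ∈ mt f)
    (hc : c ∈ cl f) : ¬ Disjoint m c := by
  intro h
  have h1 : m ⊆ cᶜ := by rwa [subset_compl_iff_disjoint_right]
  exact (mem_mt.mp hc).1 (hf h1 (mem_mt.mp hm).1)

theorem mt_anti {f : Finset α → Prop} {m m' : Finset α} (hm : m ∈ mt f)
    (hm' : m' ∈ mt f) (h : m ⊆ m') : m = m' := by
  by_contra hne
  exact (mem_mt.mp hm').2 m (Finset.ssubset_iff_subset_ne.mpr ⟨h, hne⟩) (mem_mt.mp hm).1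

/-- Criticality: every element of a minimal dual set has a private minimal set. -/
theorem crit {f : Finset α → Prop} (hf : Mon f) {c : Finset α} (hc : c ∈ cl f) {x : α}
    (hx : x ∈ c) : ∃ m ∈ mt f, x ∈ m ∧ ∀ y ∈ m, y ∈ c → y = x := by
  have h1 := (mem_mt.mp hc).2 (c.erase x) (erase_ssubset hx)
  have h2 : f (c.erase x)ᶜ := by
    simpa [LibSperner53.dual] using h1
  obtain ⟨m, hm, hmm⟩ := exists_mt h2
  have h3 : ∀ y ∈ m, y ∈ c → y = x := by
    intro y hy hyc
    have := hmm hy
    simp only [mem_compl, mem_erase, not_and, not_not] at this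
    by_contra hne
    exact this hne hyc
  refine ⟨m, hm, ?_, h3⟩
  have h4 := mt_cl_inter hf hm hc
  rw [Finset.not_disjoint_iff] at h4
  obtain ⟨y, hy, hyc⟩ := h4
  exact (h3 y hy hyc) ▸ hy

theorem crit' {f : Finset α → Prop} (hf : Mon f) {m : Finset α} (hm : m ∈ mt f) {x : α}
    (hx : x ∈ m) : ∃ c ∈ cl f, x ∈ c ∧ ∀ y ∈ c, y ∈ m → y = x := by
  have := crit hf.dual (c := m) (by rw [cl_dual]; exact hm) hx
  exact this

theorem card_le_mt {f : Finset α → Prop} (hf : Mon f) {c : Finset α} (hc : c ∈ cl f) :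
    c.card ≤ (mt f).card := by
  have h : ∀ x, ∃ m : Finset α, x ∈ c → (m ∈ mt f ∧ x ∈ m ∧ ∀ y ∈ m, y ∈ c → y = x) := by
    intro x
    by_cases hx : x ∈ c
    · obtain ⟨m, h1, h2, h3⟩ := crit hf hc hx
      exact ⟨m, fun _ => ⟨h1, h2, h3⟩⟩
    · exact ⟨∅, fun h => absurd h hx⟩
  choose g hg using h
  apply Finset.card_le_card_of_injOn g
  · intro x hx
    exact (hg x hx).1
  · intro x hx y hy hxy
    have h1 := (hg x hx).2.1
    rw [hxy] at h1
    exact (hg y hy).2.2 x h1 hx

theorem card_le_cl {f : Finset α → Prop} (hf : Mon f) {m : Finset α} (hm : m ∈ mt f) :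
    m.card ≤ (cl f).card := by
  have := card_le_mt hf.dual (c := m) (by rw [cl_dual]; exact hm)
  exact this

/-- The relevant variables. -/
noncomputable def supp (f : Finset α → Prop) : Finset α := (mt f).biUnion id

theorem mem_supp {f : Finset α → Prop} {x : α} : x ∈ supp f ↔ ∃ m ∈ mt f, x ∈ m := by
  simp [supp]

theorem supp_dual {f : Finset α → Prop} (hf : Mon f) : supp (dual f) = supp f := by
  ext x
  rw [mem_supp, mem_supp]
  constructor
  · rintro ⟨c, hc, hx⟩
    obtain ⟨m, hm, h, -⟩ := crit hf hc hx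
    exact ⟨m, hm, h⟩
  · rintro ⟨m, hm, hx⟩
    obtain ⟨c, hc, h, -⟩ := crit' hf hm hx
    exact ⟨c, hc, h⟩

theorem cl_subset_supp {f : Finset α → Prop} (hf : Mon f) {c : Finset α} (hc : c ∈ cl f) :
    c ⊆ supp f := by
  intro x hx
  rw [← supp_dual hf, mem_supp]
  exact ⟨c, hc, hx⟩

theorem mt_subset_supp {f : Finset α → Prop} {m : Finset α} (hm : m ∈ mt f) :
    m ⊆ supp f := by
  intro x hx
  rw [mem_supp]
  exact ⟨m, hm, hx⟩

theorem mon_inter {f : Finset α → Prop} (hf : Mon f) {U : Finset α} (hU : supp f ⊆ U)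
    (Z : Finset α) : f (Z ∩ U) ↔ f Z := by
  constructor
  · intro h
    exact hf inter_subset_left h
  · intro h
    obtain ⟨m, hm, hmZ⟩ := exists_mt h
    exact hf (subset_inter hmZ ((mt_subset_supp hm).trans hU)) (mem_mt.mp hm).1

/-! ### Restriction `x = 0` -/

/-- `f` with `x` set to false. -/
def res (x : α) (f : Finset α → Prop) : Finset α → Prop := fun Z => f (Z.erase x)

theorem Mon.res {f : Finset α → Prop} (hf : Mon f) (x : α) : Mon (res x f) := by
  intro A B hAB hA
  exact hf (erase_subset_erase x hAB) hA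

theorem mt_res_subset {f : Finset α → Prop} (x : α) {m : Finset α}
    (hm : m ∈ mt (res x f)) : m ∈ mt f ∧ x ∉ m := by
  obtain ⟨h1, h2⟩ := mem_mt.mp hm
  have hx : x ∉ m := by
    intro hx
    apply h2 (m.erase x) (erase_ssubset hx)
    show f ((m.erase x).erase x)
    rw [erase_idem]
    exact h1
  refine ⟨mem_mt.mpr ⟨?_, ?_⟩, hx⟩
  · have : m.erase x = m := erase_eq_of_notMem hx
    have h3 : f (m.erase x) := h1
    rwa [this] at h3
  · intro m' hm' hf'
    apply h2 m' hm'
    show f (m'.erase x)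
    rw [erase_eq_of_notMem (fun h => hx (hm'.1 h))]
    exact hf'

theorem cl_res_subset {f : Finset α → Prop} (hf : Mon f) (x : α) {c : Finset α}
    (hc : c ∈ cl (res x f)) : ∃ c2 ∈ cl f, c2.erase x = c := by
  obtain ⟨h1, h2⟩ := mem_mt.mp hc
  have key : ∀ Z : Finset α, dual (res x f) Z ↔ dual f (insert x Z) := by
    intro Z
    have : Zᶜ.erase x = (insert x Z)ᶜ := by
      ext y
      simp only [mem_erase, mem_compl, mem_insert, not_or]
    show ¬ f (Zᶜ.erase x) ↔ ¬ f (insert x Z)ᶜ
    rw [this]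
  rw [key] at h1
  obtain ⟨c2, hc2, hcc⟩ := exists_mt h1
  refine ⟨c2, hc2, ?_⟩
  have h3 : c2.erase x ⊆ c := by
    intro y hy
    have hy' := mem_erase.mp hy
    rcases mem_insert.mp (hcc hy'.2) with h | h
    · exact absurd h hy'.1
    · exact h
  by_contra hne
  apply h2 (c2.erase x) (Finset.ssubset_iff_subset_ne.mpr ⟨h3, hne⟩)
  rw [key]
  apply hf.dual _ (mem_mt.mp hc2).1
  intro y hy
  by_cases hyx : y = x
  · simp [hyx]
  · simp [hyx, hy]

theorem tt_res {f : Finset α → Prop} (hf : Mon f) (x : α) :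
    tt (res x f) + ((mt f).filter (fun m => x ∈ m)).card ≤ tt f := by
  have h1 : mt (res x f) ⊆ (mt f).filter (fun m => ¬ x ∈ m) := by
    intro m hm
    rw [mem_filter]
    exact mt_res_subset x hm
  have h2 : cl (res x f) ⊆ (cl f).image (fun c => c.erase x) := by
    intro c hc
    rw [mem_image]
    exact cl_res_subset hf x hc
  have h3 := card_le_card h1
  have h4 := (card_le_card h2).trans card_image_le
  have h5 := Finset.card_filter_add_card_filter_not (s := mt f) (fun m => x ∈ m)
  unfold tt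
  omega

/-! ### Disjoint minimal sets -/

theorem mt_or_cl (f : Finset α → Prop) : 1 ≤ tt f := by
  unfold tt
  by_cases h : f univ
  · obtain ⟨m, hm, -⟩ := exists_mt h
    have : 0 < (mt f).card := card_pos.mpr ⟨m, hm⟩
    omega
  · obtain ⟨m, hm, -⟩ := exists_cl h
    have : 0 < (cl f).card := card_pos.mpr ⟨m, hm⟩
    omega

theorem cl_nonempty_of_mt {f : Finset α → Prop} (hf : Mon f)
    (h2 : ∀ m ∈ mt f, m.Nonempty) : (cl f).Nonempty := by
  by_cases h : f ∅
  · obtain ⟨m, hm, hmm⟩ := exists_mt h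
    obtain ⟨x, hx⟩ := h2 m hm
    exact absurd (hmm hx) (notMem_empty x)
  · obtain ⟨c, hc, -⟩ := exists_cl h
    exact ⟨c, hc⟩

theorem pow_le_cl {f : Finset α → Prop} (hf : Mon f)
    (hd : ∀ m ∈ mt f, ∀ m' ∈ mt f, m ≠ m' → Disjoint m m')
    (h2 : ∀ m ∈ mt f, 2 ≤ m.card) : 2 ^ (mt f).card ≤ (cl f).card := by
  rcases (mt f).eq_empty_or_nonempty with he | hne
  · rw [he, card_empty, pow_zero]
    have := cl_nonempty_of_mt hf (fun m hm => card_pos.mp (by have := h2 m hm; omega))
    exact card_pos.mpr this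
  obtain ⟨m0, hm0⟩ := hne
  have hnα : Nonempty α := by
    obtain ⟨u, -, -⟩ := Finset.one_lt_card.mp (h2 m0 hm0)
    exact ⟨u⟩
  have hch : ∀ m : Finset α, ∃ uv : α × α, m ∈ mt f → (uv.1 ∈ m ∧ uv.2 ∈ m ∧ uv.1 ≠ uv.2) := by
    intro m
    by_cases hm : m ∈ mt f
    · obtain ⟨u, hu, v, hv, huv⟩ := Finset.one_lt_card.mp (h2 m hm)
      exact ⟨(u, v), fun _ => ⟨hu, hv, huv⟩⟩
    · obtain ⟨a⟩ := hnα
      exact ⟨(a, a), fun h => absurd h hm⟩
  choose g hg using hch
  -- the representative of `m` in the set attached to `A`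
  let r : Finset (Finset α) → Finset α → α := fun A m => if m ∈ A then (g m).1 else (g m).2
  have hr : ∀ A, ∀ m ∈ mt f, r A m ∈ m := by
    intro A m hm
    simp only [r]
    split_ifs
    · exact (hg m hm).1
    · exact (hg m hm).2.1
  have huniq : ∀ A, ∀ m ∈ mt f, ∀ x ∈ m, x ∈ (mt f).image (r A) → x = r A m := by
    intro A m hm x hx hxi
    obtain ⟨m', hm', rfl⟩ := mem_image.mp hxi
    by_cases hmm : m = m'
    · rw [hmm]
    · exact absurd hx (Finset.disjoint_left.mp (hd m' hm' m hm (Ne.symm hmm)) (hr A m' hm'))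
  have hcl : ∀ A, (mt f).image (r A) ∈ cl f := by
    intro A
    unfold cl
    rw [mem_mt]
    constructor
    · intro hfc
      obtain ⟨m, hm, hmm⟩ := exists_mt hfc
      have h1 := hmm (hr A m hm)
      rw [mem_compl] at h1
      exact h1 (mem_image_of_mem _ hm)
    · intro c' hc' hdu
      obtain ⟨x, hx, hxc⟩ := Finset.exists_of_ssubset hc'
      obtain ⟨m, hm, rfl⟩ := mem_image.mp hx
      apply hdu
      apply hf _ (mem_mt.mp hm).1
      intro y hy
      rw [mem_compl]
      intro hyc
      have := huniq A m hm y hy (hc'.1 hyc)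
      exact hxc (this ▸ hyc)
  have hinj : Set.InjOn (fun A => (mt f).image (r A)) ((mt f).powerset : Set (Finset (Finset α))) := by
    intro A hA B hB hAB
    have hA' : A ⊆ mt f := by simpa using hA
    have hB' : B ⊆ mt f := by simpa using hB
    have key : ∀ A B : Finset (Finset α), A ⊆ mt f →
        (mt f).image (r A) = (mt f).image (r B) → A ⊆ B := by
      intro A B hA' hAB m hm
      have hmf := hA' hm
      have h1 : r A m ∈ (mt f).image (r B) := by
        rw [← hAB]
        exact mem_image_of_mem _ hmf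
      have h3 := huniq B m hmf _ (hr A m hmf) h1
      by_contra hmB
      have h4 : r A m = (g m).1 := by simp only [r, if_pos hm]
      have h5 : r B m = (g m).2 := by simp only [r, if_neg hmB]
      rw [h4, h5] at h3
      exact (hg m hmf).2.2 h3
    exact Subset.antisymm (key A B hA' hAB) (key B A hB' hAB.symm)
  calc 2 ^ (mt f).card = ((mt f).powerset).card := (card_powerset _).symm
    _ ≤ (cl f).card := by
      apply Finset.card_le_card_of_injOn _ _ hinj
      intro A _
      exact hcl A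

end Pool.Agent.LibSperner53
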